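import Mathlib
import Pool.Agent.Run7.h783.GS.Base

set_option autoImplicit false

/-!
The general theorem on one sequence for an arbitrary property of finite sets of affine maps which is closed under
subsets, invariant under right translations, and satisfies a coloured theorem above one quarter.
-/

namespace Pool.Agent.Run7.h783.GL

open Finset
open Pool.Agent.Run7.h783.GS
open Pool.Agent.Run7.h783.RecSeq
open Pool.Agent.Run7.h783.OneSeq (lt4 card_lt4 two_of_four)

/-- the coloured theorem, with the constant `4 - c₀`, for the property `P` and the local condition `Rd` -/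
def Col (P Rd : Finset PQ → Prop) (A : Subgroup PQ) (c₀ : ℝ) : Prop := ∀ T M : ℕ, 1 ≤ T →
  (4 - c₀) * (M : ℝ) < (T : ℝ) → ∃ K : ℕ, 1 ≤ K ∧ ∀ y : Fin T → Fin K → PQ,
    Function.Injective (fun x : Fin T × Fin K => y x.1 x.2) →
    (∀ g i, y g i ∈ A) → Rd (univ.image fun x : Fin T × Fin K => y x.1 x.2) →
    ∃ (S : Finset (Fin T)) (c : Fin T → Fin K), M + 1 ≤ S.card ∧ P (S.image fun g => y g (c g))

/-- the local condition: finite sets of late elements of the four classes `E n * z i` satisfy `Rd` -/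
def LC (Rd : Finset PQ → Prop) (E : ℕ → PQ) (z : Fin 4 → PQ) : Prop := ∀ L : ℕ, ∃ n₀ : ℕ,
  ∀ W : Finset PQ, W.card ≤ L → (∀ w ∈ W, ∃ n, n₀ ≤ n ∧ ∃ i, w = E n * z i) → Rd W

variable {P Rd : Finset PQ → Prop} {A : Subgroup PQ} {c₀ : ℝ}

theorem LC.comp {E : ℕ → PQ} {z : Fin 4 → PQ} (h : LC Rd E z) {φ : ℕ → ℕ} (hφ : StrictMono φ) :
    LC Rd (E ∘ φ) z := by
  intro L
  obtain ⟨n₀, hn₀⟩ := h L
  refine ⟨n₀, fun W hW hw => hn₀ W hW fun w hwW => ?_⟩
  obtain ⟨n, hn, i, hi⟩ := hw w hwW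
  exact ⟨φ n, hn.trans hφ.le_apply, i, hi⟩

theorem many (hsub : ∀ W W' : Finset PQ, W' ⊆ W → P W → P W') (hc₀ : 0 < c₀) (hc₁ : c₀ < 4)
    (hCol : Col P Rd A c₀) (E : ℕ → PQ) (hA : ∀ n, E n ∈ A) (hL : LC Rd E (fun _ => 1)) (m : ℕ) : ∃ L n₀ : ℕ,
    ∀ W : Finset PQ, W.card = L → (∀ w ∈ W, ∃ n, n₀ ≤ n ∧ w = E n) → ∃ W' ⊆ W, W'.card = m ∧ P W' := by
  classical
  obtain ⟨K, hK, hQ'⟩ := hCol (4 * m + 1) m (by omega) (by
    push_cast
    nlinarith [Nat.cast_nonneg (α := ℝ) m])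
  obtain ⟨n₀, hn₀⟩ := hL ((4 * m + 1) * K)
  refine ⟨(4 * m + 1) * K, n₀, fun W hW hWn => ?_⟩
  set e := (W.equivFinOfCardEq hW).symm with he
  set y : Fin (4 * m + 1) → Fin K → PQ := fun g i => (e (finProdFinEquiv (g, i))).1 with hy
  have hyi : Function.Injective (fun x : Fin (4 * m + 1) × Fin K => y x.1 x.2) := by
    intro x x' h
    have h1 := e.injective (Subtype.ext h)
    exact finProdFinEquiv.injective h1
  have hyW : ∀ g i, y g i ∈ W := fun g i => (e (finProdFinEquiv (g, i))).2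
  have hR : Rd (univ.image fun x : Fin (4 * m + 1) × Fin K => y x.1 x.2) := by
    apply hn₀
    · refine card_image_le.trans ?_
      rw [card_univ, Fintype.card_prod, Fintype.card_fin, Fintype.card_fin]
    · intro w hw
      obtain ⟨x, -, rfl⟩ := mem_image.1 hw
      obtain ⟨n, hn, hn'⟩ := hWn _ (hyW x.1 x.2)
      exact ⟨n, hn, 0, by rw [mul_one]; exact hn'⟩
  obtain ⟨S, c, hS, hPr⟩ := hQ' y hyi (fun g i => by
    obtain ⟨n, -, hn⟩ := hWn _ (hyW g i)
    rw [hn]; exact hA n) hR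
  have hcard : (S.image fun g => y g (c g)).card = S.card := by
    apply card_image_of_injOn
    intro g _ g' _ h
    exact congrArg Prod.fst (hyi (a₁ := (g, c g)) (a₂ := (g', c g')) h)
  obtain ⟨W', hW', hW'c⟩ := Finset.exists_subset_card_eq (s := S.image fun g => y g (c g)) (n := m)
    (by rw [hcard]; omega)
  refine ⟨W', fun w hw => ?_, hW'c, hsub _ _ hW' hPr⟩
  obtain ⟨g, -, rfl⟩ := mem_image.1 (hW' hw)
  exact hyW _ _

theorem ram_step (hsub : ∀ W W' : Finset PQ, W' ⊆ W → P W → P W') (hc₀ : 0 < c₀) (hc₁ : c₀ < 4)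
    (hCol : Col P Rd A c₀) (E : ℕ → PQ) (hE : Function.Injective E) (hA : ∀ n, E n ∈ A)
    (hL : LC Rd E (fun _ => 1)) (m : ℕ) (X : Set ℕ) (hX : X.Infinite) : ∃ X' ⊆ X, X'.Infinite ∧
      ∀ s : Finset ℕ, s.card = m → (↑s : Set ℕ) ⊆ X' → P (s.image E) := by
  classical
  obtain ⟨L, n₀, hmany⟩ := many hsub hc₀ hc₁ hCol E hA hL m
  have : Infinite X := hX.to_subtype
  obtain ⟨H, c, hH, hc⟩ := Pool.Agent.H330.infinite_ramsey (A := X) (C := Prop) m
    (fun s => P (s.image fun n => E n.1))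
  have hinj : Function.Injective (fun n : X => E n.1) := fun n n' h => Subtype.ext (hE h)
  have hctrue : c := by
    -- a late finite subset
    have h1 : (H \ {n : X | n.1 < n₀}).Infinite := by
      apply hH.sdiff
      apply Set.Finite.subset (s := Subtype.val ⁻¹' (Set.Iio n₀))
      · exact (Set.finite_Iio n₀).preimage Subtype.val_injective.injOn
      · intro n hn
        exact hn
    obtain ⟨t, ht, htL⟩ := h1.exists_subset_card_eq L
    obtain ⟨W', hW', hW'm, hPr⟩ := hmany (t.image fun n => E n.1) (by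
      rw [card_image_of_injective _ hinj]; exact htL) (by
      intro w hw
      obtain ⟨n, hn, rfl⟩ := mem_image.1 hw
      have := (ht (mem_coe.2 hn)).2
      exact ⟨n.1, not_lt.1 this, rfl⟩)
    set s : Finset X := t.filter fun n => E n.1 ∈ W' with hs
    have hsW : s.image (fun n => E n.1) = W' := by
      ext w
      rw [mem_image]
      constructor
      · rintro ⟨n, hn, rfl⟩
        exact (mem_filter.1 hn).2
      · intro hw
        obtain ⟨n, hn, rfl⟩ := mem_image.1 (hW' hw)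
        exact ⟨n, mem_filter.2 ⟨hn, hw⟩, rfl⟩
    have hsm : s.card = m := by
      rw [← hW'm, ← hsW, card_image_of_injective _ hinj]
    have h2 := hc s hsm (fun n hn => (ht (mem_coe.2 (mem_filter.1 (mem_coe.1 hn)).1)).1)
    simp only [hsW] at h2
    rw [← h2]
    exact hPr
  refine ⟨Subtype.val '' H, ?_, hH.image Subtype.val_injective.injOn, ?_⟩
  · rintro _ ⟨n, -, rfl⟩
    exact n.2
  · intro s hsm hsX
    have hsX' : ∀ n ∈ s, n ∈ X := by
      intro n hn
      obtain ⟨n', -, rfl⟩ := hsX (mem_coe.2 hn)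
      exact n'.2
    set s' : Finset X := s.subtype (· ∈ X) with hs'
    have h1 : s'.image (fun n => E n.1) = s.image E := by
      ext w
      rw [mem_image, mem_image]
      constructor
      · rintro ⟨n, hn, rfl⟩
        exact ⟨n.1, mem_subtype.1 hn, rfl⟩
      · rintro ⟨n, hn, rfl⟩
        exact ⟨⟨n, hsX' n hn⟩, mem_subtype.2 hn, rfl⟩
    have h2 : s'.card = m := by
      rw [hs', card_subtype, filter_true_of_mem hsX', hsm]
    have h3 := hc s' h2 (by
      intro n hn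
      obtain ⟨n', hn', hnn⟩ := hsX (mem_coe.2 (mem_subtype.1 (mem_coe.1 hn)))
      rwa [← Subtype.ext hnn])
    simp only [h1] at h3
    rw [h3]
    exact hctrue

theorem exists_clique (hsub : ∀ W W' : Finset PQ, W' ⊆ W → P W → P W') (hc₀ : 0 < c₀) (hc₁ : c₀ < 4)
    (hCol : Col P Rd A c₀) (E : ℕ → PQ) (hE : Function.Injective E) (hA : ∀ n, E n ∈ A)
    (hL : LC Rd E (fun _ => 1)) : ∃ φ : ℕ → ℕ, StrictMono φ ∧ ∀ k, Cl P k (Tl (E ∘ φ) k) := by
  classical
  have hstep := ram_step hsub hc₀ hc₁ hCol E hE hA hL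
  choose! Y hY1 hY2 hY3 using hstep
  -- a decreasing sequence of infinite sets
  set H : ℕ → Set ℕ := fun j => Nat.rec Set.univ (fun j X => Y (j + 1) X) j with hH
  have hHs : ∀ j, H (j + 1) = Y (j + 1) (H j) := fun j => rfl
  have hHi : ∀ j, (H j).Infinite := by
    intro j
    induction j with
    | zero => exact Set.infinite_univ
    | succ j ih => rw [hHs]; exact hY2 _ _ ih
  have hHa : Antitone H := antitone_nat_of_succ_le fun j => by
    rw [hHs]; exact hY1 _ _ (hHi j)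
  -- the diagonal sequence
  have hgt : ∀ j n : ℕ, ∃ n' ∈ H j, n < n' := fun j n => (hHi j).exists_gt n
  choose nx hnx1 hnx2 using hgt
  set φ : ℕ → ℕ := fun j => Nat.rec (nx 0 0) (fun j a => nx (j + 1) a) j with hφ
  have hφs : ∀ j, φ (j + 1) = nx (j + 1) (φ j) := fun j => rfl
  have hφm : StrictMono φ := strictMono_nat_of_lt_succ fun j => by rw [hφs]; exact hnx2 _ _
  have hφH : ∀ j, φ j ∈ H j := by
    intro j
    cases j with
    | zero => exact hnx1 0 0
    | succ j => rw [hφs]; exact hnx1 (j + 1) (φ j)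
  refine ⟨φ, hφm, fun k => ⟨Tl_infinite _ (hE.comp hφm.injective) k, fun W hW hWk hWB => ?_⟩⟩
  have hk : 1 ≤ k := le_trans (card_pos.2 hW) hWk
  obtain ⟨k', rfl⟩ : ∃ k', k = k' + 1 := ⟨k - 1, by omega⟩
  have hch : ∀ w ∈ W, ∃ n, n ∈ H (k' + 1) ∧ w = E n := by
    intro w hw
    obtain ⟨n, hn, rfl⟩ := hWB w hw
    exact ⟨φ n, hHa hn (hφH n), rfl⟩
  choose! ix hix1 hix2 using hch
  set s : Finset ℕ := W.image ix with hs
  have hsE : s.image E = W := by
    ext w
    rw [hs, image_image, mem_image]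
    constructor
    · rintro ⟨w', hw', rfl⟩
      show E (ix w') ∈ W
      rw [← hix2 w' hw']; exact hw'
    · intro hw
      exact ⟨w, hw, (hix2 w hw).symm⟩
  have hsc : s.card = W.card := by
    rw [← hsE, card_image_of_injective _ hE]
  obtain ⟨t, ht, htc⟩ := ((hHi (k' + 1)).sdiff s.finite_toSet).exists_subset_card_eq (k' + 1 - s.card)
  have hdis : Disjoint s t := by
    rw [Finset.disjoint_left]
    intro n hn hn'
    exact (ht (mem_coe.2 hn')).2 (mem_coe.2 hn)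
  have h1 : (s ∪ t).card = k' + 1 := by
    rw [card_union_of_disjoint hdis, htc]
    omega
  have h2 : (↑(s ∪ t) : Set ℕ) ⊆ H (k' + 1) := by
    intro n hn
    rcases mem_union.1 (mem_coe.1 hn) with h | h
    · obtain ⟨w, hw, rfl⟩ := mem_image.1 h
      exact hix1 w hw
    · exact (ht (mem_coe.2 h)).1
  have h3 : P ((s ∪ t).image E) := hY3 (k' + 1) (H k') (hHi k') (s ∪ t) h1 (by rw [← hHs]; exact h2)
  refine hsub _ _ ?_ h3
  rw [← hsE]
  exact image_subset_image subset_union_left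

theorem con4 (hsub : ∀ W W' : Finset PQ, W' ⊆ W → P W → P W') (hc₀ : 0 < c₀) (hc₁ : c₀ < 4)
    (hCol : Col P Rd A c₀) (E : ℕ → PQ) (hE : Function.Injective E) (hA : ∀ n, E n ∈ A) (z : Fin 4 → PQ)
    (hz : ∀ i, z i ∈ A) (hL : LC Rd E z) (N k : ℕ) (F : Finset PQ) : ∃ i j : Fin 4, i < j ∧ ∃ l,
      Seg P k (rt (Tl E N) (z i) ∪ rt (Tl E N) (z j)) (rt (Tl E N) (z i)) (rt (Tl E N) (z j)) F l := by
  classical
  obtain ⟨m, hm1, hm⟩ : ∃ m : ℕ, 1 ≤ m ∧ (4 - c₀) * ((m + 3 * k : ℕ) : ℝ) < ((4 * m : ℕ) : ℝ) := by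
    obtain ⟨m, hm⟩ := exists_nat_gt ((4 - c₀) * (3 * k) / c₀ + 1)
    have h0 : 0 ≤ (4 - c₀) * (3 * k) / c₀ := by
      have : 0 ≤ 4 - c₀ := by linarith
      positivity
    refine ⟨m, ?_, ?_⟩
    · have : (1 : ℝ) < m := by linarith
      exact_mod_cast this.le
    · have h1 : (4 - c₀) * (3 * k) / c₀ < m := by linarith
      rw [div_lt_iff₀ hc₀] at h1
      push_cast
      linarith
  obtain ⟨K, hK, hQ'⟩ := hCol (4 * m) (m + 3 * k) (by omega) hm
  obtain ⟨n₀, hn₀⟩ := hL (4 * m * K)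
  -- the forms
  obtain ⟨f, hf, hfm⟩ := reps (ι := Fin (4 * m) × Fin K) (α := PQ)
    (fun x => rt (Tl E (max N n₀)) (z (lt4 m hm1 x.1)) \ (F : Set PQ))
    (fun x => (rt_infinite (Tl_infinite E hE _) _).sdiff F.finite_toSet)
  set y : Fin (4 * m) → Fin K → PQ := fun g i => f (g, i) with hy
  have hyi : Function.Injective (fun x : Fin (4 * m) × Fin K => y x.1 x.2) := hf
  have hyr : ∀ g i, ∃ n, max N n₀ ≤ n ∧ y g i = E n * z (lt4 m hm1 g) := by
    intro g i
    obtain ⟨n, hn, hn'⟩ := (hfm (g, i)).1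
    exact ⟨n, hn, by rw [← hn', inv_mul_cancel_right]⟩
  have hyF : ∀ g i, y g i ∉ F := fun g i => (hfm (g, i)).2
  have hyA : ∀ g i, y g i ∈ A := by
    intro g i
    obtain ⟨n, -, hn⟩ := hyr g i
    rw [hn]
    exact A.mul_mem (hA n) (hz _)
  have hR : Rd (univ.image fun x : Fin (4 * m) × Fin K => y x.1 x.2) := by
    apply hn₀
    · refine card_image_le.trans ?_
      rw [card_univ, Fintype.card_prod, Fintype.card_fin, Fintype.card_fin]
    · intro w hw
      obtain ⟨x, -, rfl⟩ := mem_image.1 hw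
      obtain ⟨n, hn, hn'⟩ := hyr x.1 x.2
      exact ⟨n, le_trans (le_max_right _ _) hn, _, hn'⟩
  obtain ⟨S, c, hS, hPr⟩ := hQ' y hyi hyA hR
  have hinj : ∀ g g', y g (c g) = y g' (c g') → g = g' := fun g g' h =>
    congrArg Prod.fst (hyi (a₁ := (g, c g)) (a₂ := (g', c g')) h)
  -- two letters
  have hsum : ∑ a, (S.filter (fun g => lt4 m hm1 g = a)).card = S.card := by
    rw [← card_eq_sum_card_fiberwise (f := lt4 m hm1) (s := S) (t := univ) (fun _ _ => mem_coe.2 (mem_univ _))]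
  obtain ⟨i, j, hij, hi, hj⟩ := two_of_four (fun a => (S.filter (fun g => lt4 m hm1 g = a)).card) m k
    (fun a => (card_le_card (filter_subset_filter _ (subset_univ _))).trans (card_lt4 m hm1 a))
    (by rw [hsum]; exact hS)
  obtain ⟨U, hU, hUk⟩ := Finset.exists_subset_card_eq hi.le
  obtain ⟨V, hV, hVk⟩ := Finset.exists_subset_card_eq hj.le
  set U' : Finset PQ := U.image fun g => y g (c g) with hU'
  set V' : Finset PQ := V.image fun g => y g (c g) with hV'
  have hU'k : U'.card = k := by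
    rw [hU', card_image_of_injective _ (fun g g' h => hinj g g' h), hUk]
  have hV'k : V'.card = k := by
    rw [hV', card_image_of_injective _ (fun g g' h => hinj g g' h), hVk]
  have hUS : ∀ g ∈ U, g ∈ S ∧ lt4 m hm1 g = i := fun g hg => mem_filter.1 (hU hg)
  have hVS : ∀ g ∈ V, g ∈ S ∧ lt4 m hm1 g = j := fun g hg => mem_filter.1 (hV hg)
  have hUr : ∀ x ∈ U', x ∈ rt (Tl E N) (z i) := by
    intro x hx
    obtain ⟨g, hg, rfl⟩ := mem_image.1 hx
    obtain ⟨n, hn, hn'⟩ := hyr g (c g)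
    refine ⟨n, le_trans (le_max_left _ _) hn, ?_⟩
    rw [hn', (hUS g hg).2, mul_inv_cancel_right]
  have hVr : ∀ x ∈ V', x ∈ rt (Tl E N) (z j) := by
    intro x hx
    obtain ⟨g, hg, rfl⟩ := mem_image.1 hx
    obtain ⟨n, hn, hn'⟩ := hyr g (c g)
    refine ⟨n, le_trans (le_max_left _ _) hn, ?_⟩
    rw [hn', (hVS g hg).2, mul_inv_cancel_right]
  have hdis : ∀ x ∈ U', x ∉ V' := by
    intro x hx hx'
    obtain ⟨g, hg, rfl⟩ := mem_image.1 hx
    obtain ⟨g', hg', h⟩ := mem_image.1 hx'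
    have h1 := hinj _ _ h
    subst h1
    have h2 := (hUS _ hg).2
    rw [(hVS _ hg').2] at h2
    exact absurd h2 (ne_of_gt hij)
  have hsub' : ∀ x, x ∈ U' ∨ x ∈ V' → x ∈ S.image fun g => y g (c g) := by
    rintro x (hx | hx)
    · obtain ⟨g, hg, rfl⟩ := mem_image.1 hx
      exact mem_image_of_mem _ (hUS g hg).1
    · obtain ⟨g, hg, rfl⟩ := mem_image.1 hx
      exact mem_image_of_mem _ (hVS g hg).1
  have hmem : ∀ x, x ∈ U'.toList ++ V'.toList ↔ x ∈ U' ∨ x ∈ V' := by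
    intro x
    rw [List.mem_append, mem_toList, mem_toList]
  refine ⟨i, j, hij, U'.toList ++ V'.toList, ?_, ?_, ?_, ?_, ?_, ?_, ?_⟩
  · rw [List.nodup_append]
    refine ⟨nodup_toList _, nodup_toList _, fun a ha b hb hab => ?_⟩
    subst hab
    exact hdis a (mem_toList.1 ha) (mem_toList.1 hb)
  · rw [List.length_append, length_toList, hU'k]
    exact Nat.le_add_right _ _
  · intro x hx
    rcases (hmem x).1 hx with h | h
    · exact Or.inl (hUr x h)
    · exact Or.inr (hVr x h)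
  · intro x hx
    rcases (hmem x).1 hx with h | h
    · obtain ⟨g, -, rfl⟩ := mem_image.1 h
      exact hyF _ _
    · obtain ⟨g, -, rfl⟩ := mem_image.1 h
      exact hyF _ _
  · intro x hx
    rw [List.take_append_of_le_length (by rw [length_toList, hU'k])] at hx
    exact hUr x (mem_toList.1 (List.mem_of_mem_take hx))
  · intro x hx
    rw [List.length_append, length_toList, length_toList, hU'k, hV'k, Nat.add_sub_cancel,
      List.drop_append_of_le_length (by rw [length_toList, hU'k]),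
      List.drop_eq_nil_of_le (by rw [length_toList, hU'k]), List.nil_append] at hx
    exact hVr x (mem_toList.1 hx)
  · intro s hs hne hlen
    refine hsub _ _ (fun x hx => hsub' x ?_) hPr
    exact (hmem x).1 (hs.subset (List.mem_toFinset.1 hx))

/-- two of four translates are directly connected -/
theorem dir4 (hsub : ∀ W W' : Finset PQ, W' ⊆ W → P W → P W') (hinv : RInv A P) (hc₀ : 0 < c₀) (hc₁ : c₀ < 4)
    (hCol : Col P Rd A c₀) (E : ℕ → PQ) (hE : Function.Injective E) (hA : ∀ n, E n ∈ A) (z : Fin 4 → PQ)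
    (hz : ∀ i, z i ∈ A) (hL : LC Rd E z) (N k : ℕ) : ∃ i j : Fin 4, i < j ∧
      Dir P k (Tl E N) (z j * (z i)⁻¹) := by
  classical
  have h0 : ∃ i j : Fin 4, i < j ∧ Conn P k (rt (Tl E N) (z i) ∪ rt (Tl E N) (z j)) (rt (Tl E N) (z i))
      (rt (Tl E N) (z j)) := by
    by_contra hcon
    push Not at hcon
    have h1 : ∀ i j : Fin 4, ∃ F : Finset PQ, i < j → ∀ l,
        ¬ Seg P k (rt (Tl E N) (z i) ∪ rt (Tl E N) (z j)) (rt (Tl E N) (z i)) (rt (Tl E N) (z j)) F l := by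
      intro i j
      by_cases hij : i < j
      · have h2 := hcon i j hij
        unfold Conn at h2
        push Not at h2
        obtain ⟨F, h3⟩ := h2
        exact ⟨F, fun _ => h3⟩
      · exact ⟨∅, fun h' => absurd h' hij⟩
    choose F hF using h1
    obtain ⟨i, j, hij, l, hl⟩ := con4 hsub hc₀ hc₁ hCol E hE hA z hz hL N k
      (univ.biUnion fun p : Fin 4 × Fin 4 => F p.1 p.2)
    exact hF i j hij l (hl.mono le_rfl subset_rfl subset_rfl subset_rfl
      (subset_biUnion_of_mem (fun p : Fin 4 × Fin 4 => F p.1 p.2) (mem_univ (i, j))))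
  obtain ⟨i, j, hij, h⟩ := h0
  refine ⟨i, j, hij, ?_⟩
  have h1 := Conn.rt hinv h (A.inv_mem (hz i))
  rw [rt_union, rt_rt, rt_rt, mul_inv_cancel, rt_one] at h1
  exact h1

/-- **The general theorem.** -/
theorem main (hsub : ∀ W W' : Finset PQ, W' ⊆ W → P W → P W') (hinv : RInv A P) (hc₀ : 0 < c₀) (hc₁ : c₀ < 4)
    (hCol : Col P Rd A c₀) (hAc : (A : Set PQ).Countable) (E : ℕ → PQ) (hE : Function.Injective E)
    (hEA : ∀ n, E n ∈ A) (hL : LC Rd E (fun _ => 1))
    (hidx : ∀ H : Subgroup PQ, H ≤ A →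
      (∀ z : Fin 4 → PQ, (∀ i, z i ∈ A) → LC Rd E z → ∃ i j : Fin 4, i < j ∧ z j * (z i)⁻¹ ∈ H) →
      H.relIndex A ≠ 0 ∧ H.relIndex A ≤ 3 ∧ ∀ n, E n ∈ H) :
    ∃ H : Subgroup PQ, H ≤ A ∧ H.relIndex A ≠ 0 ∧ H.relIndex A ≤ 3 ∧
      ∃ x : ℕ → PQ, Function.Injective x ∧ Set.range x = H ∧
        ∀ k : ℕ, 1 ≤ k → ∃ i₀ : ℕ, ∀ i ≥ i₀, P ((Finset.range k).image fun j => x (i + j)) := by
  obtain ⟨φ, hφ, hcl⟩ := exists_clique hsub hc₀ hc₁ hCol E hE hEA hL
  have hfour : ∀ k, ∀ z : Fin 4 → PQ, (∀ i, z i ∈ A) → LC Rd E z →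
      ∃ i j : Fin 4, i < j ∧ z j * (z i)⁻¹ ∈ HH P A k (Tl (E ∘ φ) k) := by
    intro k z hz hLz
    obtain ⟨i, j, hij, hd⟩ := dir4 hsub hinv hc₀ hc₁ hCol (E ∘ φ) (hE.comp hφ.injective) (fun n => hEA _) z
      hz (hLz.comp hφ) k k
    exact ⟨i, j, hij, Subgroup.subset_closure ⟨A.mul_mem (hz j) (A.inv_mem (hz i)), hd⟩⟩
  refine engine A hinv hAc (fun k => Tl (E ∘ φ) k) (Tl_anti _) hcl
    (fun k => ?_) (fun k => ?_)
  · have h := hidx _ HH_le (hfour k)
    exact ⟨h.1, h.2.1⟩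
  · rintro _ ⟨n, -, rfl⟩
    exact (hidx _ HH_le (hfour k)).2.2 _


end Pool.Agent.Run7.h783.GL
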