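import Mathlib
import Pool.Agent.Y827.HN.Pat
import Pool.Agent.Run7.h783.GL.Gen

set_option autoImplicit false

/-!
All patterns of prime and composite values of affine maps along narrow progressions: the property, its invariance,
and the coloured theorem for it.
-/

namespace Pool.Agent.Run7.h783.GL

open Finset Filter
open Pool.Agent.Run7.h783.GS
open Pool.Agent.Run7.h783.RecSeq
open Pool.Agent.Y827.HN

/-- at the point `x` the maps of `A` have prime values and the other maps of `W` do not -/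
def PT (W A : Finset PQ) (x : ℚ) : Prop :=
  (∀ σ ∈ A, ∃ p : ℕ, p.Prime ∧ σ x = p) ∧ ∀ σ ∈ W, σ ∉ A → ¬ ∃ p : ℕ, p.Prime ∧ σ x = p

open Classical in
/-- the number of the `1 ≤ n ≤ N` starting a progression of `l` points with difference `d` at all of which the
pattern `A` of `W` occurs -/
noncomputable def cntP (α β : ℚ) (W A : Finset PQ) (l d N : ℕ) : ℕ :=
  ((Icc 1 N).filter fun n : ℕ => ∀ j < l, PT W A (α * ((n + j * d : ℕ) : ℚ) + β)).card

/-- integral values on the progression -/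
def IV (α β : ℚ) (W : Finset PQ) : Prop := ∀ σ ∈ W, ∃ a b : ℤ, ∀ n : ℤ, σ (α * n + β) = a * n + b

/-- all patterns of `W` occur very often along narrow progressions of every length, on one of the rational
progressions of `S` -/
def PrL (S : Set (ℚ × ℚ)) (W : Finset PQ) : Prop := ∃ α β : ℚ, (α, β) ∈ S ∧ 0 < α ∧ IV α β W ∧
  ∀ l : ℕ, ∃ C : ℕ, ∃ᶠ N : ℕ in atTop, ∀ A ⊆ W,
  ∃ d : ℕ, 1 ≤ d ∧ (d : ℝ) ≤ (Real.log N) ^ C ∧ (N : ℝ) / (Real.log N) ^ C ≤ (cntP α β W A l d N : ℝ)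

/-- after one of the substitutions of `S` the maps of `W` become integral linear forms without fixed divisor -/
def RdS (S : Set (ℚ × ℚ)) (W : Finset PQ) : Prop := ∃ (α β : ℚ), (α, β) ∈ S ∧ 0 < α ∧ ∃ a b : PQ → ℤ,
  (∀ σ ∈ W, 0 < a σ ∧ ∀ n : ℤ, σ (α * n + β) = a σ * n + b σ) ∧
  ∀ p : ℕ, p.Prime → ∃ n : ℤ, ∀ σ ∈ W, ¬ (p : ℤ) ∣ a σ * n + b σ

/-- the progressions of `S` are permuted by the inverses of the elements of `A` -/
def InvS (S : Set (ℚ × ℚ)) (A : Subgroup PQ) : Prop := ∀ z ∈ A, ∀ u v : ℚ, 0 < u → (∀ x, z x = u * x + v) →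
  ∀ α β : ℚ, (α, β) ∈ S → (α / u, (β - v) / u) ∈ S

variable {S : Set (ℚ × ℚ)} {A : Subgroup PQ}

theorem PrL.sub (W W' : Finset PQ) (h : W' ⊆ W) (hW : PrL S W) : PrL S W' := by
  classical
  obtain ⟨α, β, hS, hα, hI, hB⟩ := hW
  refine ⟨α, β, hS, hα, fun σ hσ => hI σ (h hσ), fun l => ?_⟩
  obtain ⟨C, hC⟩ := hB l
  refine ⟨C, hC.mono fun N hN A hA => ?_⟩
  obtain ⟨d, hd1, hd2, hd3⟩ := hN A (hA.trans h)
  refine ⟨d, hd1, hd2, hd3.trans ?_⟩
  rw [Nat.cast_le]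
  unfold cntP
  apply card_le_card
  intro n hn
  rw [mem_filter] at hn ⊢
  refine ⟨hn.1, fun j hj => ⟨(hn.2 j hj).1, fun σ hσ hσA => (hn.2 j hj).2 σ (h hσ) hσA⟩⟩

theorem rinv_PrL (hA : A ≤ AffG) (hSA : InvS S A) : RInv A (PrL S) := by
  classical
  rintro W z hzA ⟨α, β, hS, hα, hI, hB⟩
  obtain ⟨u, v, hu, hz⟩ := hA hzA
  have hx : ∀ n : ℚ, z (α / u * n + (β - v) / u) = α * n + β := by
    intro n
    rw [hz]
    field_simp
    ring
  refine ⟨α / u, (β - v) / u, hSA z hzA u v hu hz α β hS, div_pos hα hu, ?_, fun l => ?_⟩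
  · intro σ hσ
    obtain ⟨τ, hτ, rfl⟩ := mem_image.1 hσ
    obtain ⟨a, b, hab⟩ := hI τ hτ
    exact ⟨a, b, fun n => by rw [Equiv.Perm.mul_apply, hx, hab]⟩
  obtain ⟨C, hC⟩ := hB l
  refine ⟨C, hC.mono fun N hN A hA => ?_⟩
  obtain ⟨d, hd1, hd2, hd3⟩ := hN (W.filter fun σ => σ * z ∈ A) (filter_subset _ _)
  refine ⟨d, hd1, hd2, hd3.trans ?_⟩
  rw [Nat.cast_le]
  unfold cntP
  apply card_le_card
  intro n hn
  rw [mem_filter] at hn ⊢
  refine ⟨hn.1, fun j hj => ?_⟩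
  obtain ⟨h1, h2⟩ := hn.2 j hj
  constructor
  · intro σ hσ
    obtain ⟨τ, hτ, rfl⟩ := mem_image.1 (hA hσ)
    rw [Equiv.Perm.mul_apply, hx]
    exact h1 τ (mem_filter.2 ⟨hτ, hσ⟩)
  · intro σ hσ hσA
    obtain ⟨τ, hτ, rfl⟩ := mem_image.1 hσ
    rw [Equiv.Perm.mul_apply, hx]
    exact h2 τ hτ fun h => hσA (mem_filter.1 h).2

/-- the coloured theorem with all patterns along narrow progressions -/
theorem col_PrL (hAA : A ≤ AffG) : Col (PrL S) (RdS S) A (2 / 5) := by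
  classical
  intro T M hT hTM
  obtain ⟨K, hK, hKH⟩ := patR T M hT (by linarith)
  refine ⟨K, hK, fun y hy hA hR => ?_⟩
  obtain ⟨α, β, hS, hα, a, b, hab, hloc⟩ := hR
  have hmem : ∀ g i, y g i ∈ univ.image fun x : Fin T × Fin K => y x.1 x.2 := fun g i =>
    mem_image.2 ⟨(g, i), mem_univ _, rfl⟩
  set H : Fin T → Fin K → ℤ × ℤ := fun g i => (a (y g i), b (y g i)) with hH
  have hinjH : ∀ g i g' i', H g i = H g' i' → y g i = y g' i' := by
    intro g i g' i' h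
    have h1 := (hab _ (hmem g i)).2
    have h2 := (hab _ (hmem g' i')).2
    have h3 : a (y g i) = a (y g' i') := congrArg Prod.fst h
    have h4 : b (y g i) = b (y g' i') := congrArg Prod.snd h
    refine aff_ext (hAA (hA _ _)) (hAA (hA _ _)) (x := α * ((0 : ℤ) : ℚ) + β)
      (y := α * ((1 : ℤ) : ℚ) + β) ?_ ?_ ?_
    · push_cast
      intro h5
      have : α = 0 := by linarith
      exact hα.ne' this
    · rw [h1 0, h2 0, h3, h4]
    · rw [h1 1, h2 1, h3, h4]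
  have hinj : Function.Injective (fun x : Fin T × Fin K => H x.1 x.2) := by
    intro x x' h
    exact hy (hinjH _ _ _ _ h)
  have hpos : ∀ g i, 0 < (H g i).1 ∧ IsCoprime (H g i).1 (H g i).2 := by
    intro g i
    refine ⟨(hab _ (hmem g i)).1, ?_⟩
    rw [Int.isCoprime_iff_gcd_eq_one]
    by_contra hg
    obtain ⟨p, hp, hpd⟩ := Nat.exists_prime_and_dvd hg
    obtain ⟨n, hn⟩ := hloc p hp
    apply hn _ (hmem g i)
    have h1 : (p : ℤ) ∣ a (y g i) := (Int.natCast_dvd_natCast.2 hpd).trans (Int.gcd_dvd_left ..)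
    have h2 : (p : ℤ) ∣ b (y g i) := (Int.natCast_dvd_natCast.2 hpd).trans (Int.gcd_dvd_right ..)
    exact dvd_add (h1.mul_right _) h2
  have hl1 := hKH H hinj hpos (fun p hp _ => by
    obtain ⟨n, hn⟩ := hloc p hp
    exact ⟨n, fun g i => hn _ (hmem g i)⟩) ∅ (by simp)
  -- pigeonhole
  have hl2 : ∀ l : ℕ, ∃ x : Finset (Fin T) × (Fin T → Fin K), M + 1 ≤ x.1.card ∧ ∃ C : ℕ, ∃ᶠ N : ℕ in atTop,
      AllP ∅ l C N (x.1.image fun g => H g (x.2 g)) := by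
    intro l
    obtain ⟨C, hC⟩ := hl1 l
    by_contra hcon
    push Not at hcon
    have h1 : ∀ x : Finset (Fin T) × (Fin T → Fin K), ∀ᶠ N : ℕ in atTop, M + 1 ≤ x.1.card →
        ¬ AllP ∅ l C N (x.1.image fun g => H g (x.2 g)) := by
      intro x
      by_cases hx : M + 1 ≤ x.1.card
      · filter_upwards [hcon x hx C] with N hN _ using hN
      · exact Eventually.of_forall fun N h => absurd h hx
    obtain ⟨N, hN1, S, cc, hS, hcc⟩ := ((eventually_all.2 h1).and hC).exists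
    exact hN1 (S, cc) hS hcc
  choose x hx1 hx2 using hl2
  obtain ⟨B, hB⟩ := Finite.exists_infinite_fiber x
  have hBinf : (x ⁻¹' {B}).Infinite := Set.infinite_coe_iff.1 hB
  obtain ⟨j0, hj0⟩ := hBinf.nonempty
  have hj0' : x j0 = B := hj0
  refine ⟨B.1, B.2, by rw [← hj0']; exact hx1 j0, α, β, hS, hα, ?_, fun l => ?_⟩
  · intro σ hσ
    obtain ⟨g, -, rfl⟩ := mem_image.1 hσ
    exact ⟨_, _, (hab _ (hmem g (B.2 g))).2⟩
  obtain ⟨j, hj, hjl⟩ := hBinf.exists_gt l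
  have hj' : x j = B := hj
  obtain ⟨C, hC⟩ := hx2 j
  rw [hj'] at hC
  refine ⟨C, hC.mono fun N hN A hAF => ?_⟩
  have hN' := AllP_len (U := ∅) (Subset.refl _) hjl.le hN
  obtain ⟨d, hd1, hd2, hd3⟩ := hN' (A.image fun σ => (a σ, b σ)) (by
    intro f hf
    obtain ⟨σ, hσ, rfl⟩ := mem_image.1 hf
    obtain ⟨g, hg, rfl⟩ := mem_image.1 (hAF hσ)
    exact mem_image.2 ⟨g, hg, rfl⟩)
  refine ⟨d, hd1, hd2, hd3.trans ?_⟩
  rw [Nat.cast_le]
  unfold cntX cntP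
  apply card_le_card
  intro n hn
  rw [mem_filter, mem_Icc] at hn ⊢
  refine ⟨⟨by omega, hn.1.2⟩, fun i hi => ?_⟩
  obtain ⟨h1, h2⟩ := hn.2 i hi
  have hval : ∀ g, y g (B.2 g) (α * ((n + i * d : ℕ) : ℚ) + β) =
      ((a (y g (B.2 g)) * ((n + i * d : ℕ) : ℤ) + b (y g (B.2 g)) : ℤ) : ℚ) := by
    intro g
    have h3 := (hab _ (hmem g (B.2 g))).2 ((n + i * d : ℕ) : ℤ)
    rw [Int.cast_natCast] at h3
    rw [h3]
    push_cast
    ring
  constructor
  · intro σ hσ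
    obtain ⟨g, hg, rfl⟩ := mem_image.1 (hAF hσ)
    have h4 := h1 _ (mem_image_of_mem (fun σ => (a σ, b σ)) hσ)
    refine ⟨_, h4, ?_⟩
    rw [hval g]
    have h5 : (0 : ℤ) ≤ a (y g (B.2 g)) * ((n + i * d : ℕ) : ℤ) + b (y g (B.2 g)) := by
      by_contra hneg
      push Not at hneg
      have h6 : (a (y g (B.2 g)) * ((n + i * d : ℕ) : ℤ) + b (y g (B.2 g))).toNat = 0 :=
        Int.toNat_of_nonpos hneg.le
      have h7 : (a (y g (B.2 g)) * ((n + i * d : ℕ) : ℤ) + b (y g (B.2 g))).toNat.Prime := h4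
      rw [h6] at h7
      exact Nat.not_prime_zero h7
    have h6 : (((a (y g (B.2 g)) * ((n + i * d : ℕ) : ℤ) + b (y g (B.2 g))).toNat : ℤ) : ℚ) =
        ((a (y g (B.2 g)) * ((n + i * d : ℕ) : ℤ) + b (y g (B.2 g)) : ℤ) : ℚ) := by
      rw [Int.toNat_of_nonneg h5]
    rw [← h6]
    rfl
  · rintro σ hσ hσA ⟨p, hp, hpe⟩
    obtain ⟨g, hg, rfl⟩ := mem_image.1 hσ
    rw [hval g] at hpe
    have h4 : a (y g (B.2 g)) * ((n + i * d : ℕ) : ℤ) + b (y g (B.2 g)) = p := by exact_mod_cast hpe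
    have h5 := h2 (H g (B.2 g)) (by
      rw [union_empty]
      refine Finset.mem_sdiff.2 ⟨mem_image.2 ⟨g, hg, rfl⟩, fun h => ?_⟩
      obtain ⟨τ, hτ, hτe⟩ := mem_image.1 h
      obtain ⟨g', hg', rfl⟩ := mem_image.1 (hAF hτ)
      have h6 := hinjH g' (B.2 g') g (B.2 g) hτe
      rw [h6] at hτ
      exact hσA hτ)
    apply h5
    show (a (y g (B.2 g)) * ((n + i * d : ℕ) : ℤ) + b (y g (B.2 g))).toNat.Prime
    rw [h4]
    exact hp

/-- the general theorem for all patterns along narrow progressions -/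
theorem mainL (hA : A ≤ AffG) (hSA : InvS S A) (E : ℕ → PQ) (hE : Function.Injective E)
    (hEA : ∀ n, E n ∈ A) (hL : LC (RdS S) E (fun _ => 1))
    (hidx : ∀ H : Subgroup PQ, H ≤ A →
      (∀ z : Fin 4 → PQ, (∀ i, z i ∈ A) → LC (RdS S) E z → ∃ i j : Fin 4, i < j ∧ z j * (z i)⁻¹ ∈ H) →
      H.relIndex A ≠ 0 ∧ H.relIndex A ≤ 3 ∧ ∀ n, E n ∈ H) :
    ∃ H : Subgroup PQ, H ≤ A ∧ H.relIndex A ≠ 0 ∧ H.relIndex A ≤ 3 ∧
      ∃ x : ℕ → PQ, Function.Injective x ∧ Set.range x = H ∧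
        ∀ k : ℕ, 1 ≤ k → ∃ i₀ : ℕ, ∀ i ≥ i₀, PrL S ((Finset.range k).image fun j => x (i + j)) :=
  main PrL.sub (rinv_PrL hA hSA) (by norm_num) (by norm_num) (col_PrL hA) (countable_AffG.mono hA) E hE hEA hL hidx

/-- the local condition for all progressions -/
theorem LC_of_LCB {E : ℕ → PQ} {z : Fin 4 → PQ} (h : LCB E z) : LC (RdS Set.univ) E z := by
  intro L
  obtain ⟨n₀, hn₀⟩ := h L
  refine ⟨n₀, fun W hW hw => ?_⟩
  obtain ⟨α, β, hα, a, b, hab⟩ := hn₀ W hW hw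
  exact ⟨α, β, Set.mem_univ _, hα, a, b, hab⟩

end Pool.Agent.Run7.h783.GL
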