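import Mathlib
import Pool.Agent.Run7.h783.GL.Prog

set_option autoImplicit false

/-!
From rational progressions to integers.
-/

namespace Pool.Agent.Run7.h783.GL

open Finset Filter
open Pool.Agent.Run7.h783.GS

variable {S : Set (ℚ × ℚ)}

theorem ev_pow (C : ℕ) (M : ℝ) (hM : 0 < M) : ∀ᶠ N : ℕ in atTop, M * (Real.log N) ^ C ≤ N := by
  have h1 := (Real.isLittleO_pow_log_id_atTop (n := C)).bound (show 0 < 1 / M by positivity)
  have h2 := tendsto_natCast_atTop_atTop (R := ℝ) |>.eventually h1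
  filter_upwards [h2] with N hN
  rw [id, Real.norm_eq_abs, Real.norm_eq_abs, abs_of_nonneg (Nat.cast_nonneg N : (0 : ℝ) ≤ N)] at hN
  have h3 := (le_abs_self _).trans hN
  calc M * (Real.log N) ^ C ≤ M * (1 / M * N) := mul_le_mul_of_nonneg_left h3 hM.le
    _ = N := by field_simp

theorem ev_log (M : ℝ) : ∀ᶠ N : ℕ in atTop, M ≤ Real.log N :=
  (Real.tendsto_log_atTop.comp tendsto_natCast_atTop_atTop).eventually_ge_atTop M

theorem count1 {W : Finset PQ} (hW : PrL S W)
    (hint : ∀ α β : ℚ, IV α β W → ∃ a b : ℤ, α = a ∧ β = b) : ∃ a b : ℤ, ((a : ℚ), (b : ℚ)) ∈ S ∧ 0 < a ∧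
      ∀ l : ℕ, ∃ C : ℕ, ∃ᶠ X : ℕ in atTop, ∀ A ⊆ W, ∃ D : ℕ, 1 ≤ D ∧ a ∣ (D : ℤ) ∧ (D : ℝ) ≤ (Real.log X) ^ C ∧
        (X : ℝ) / (Real.log X) ^ C ≤ ({q : ℕ | q ≤ X ∧ (q : ℤ) ≡ b [ZMOD a] ∧
          ∀ t < l, PT W A ((q + t * D : ℕ) : ℚ)}.ncard : ℝ) := by
  classical
  obtain ⟨α, β, hS, hα, hI, hB⟩ := hW
  obtain ⟨a, b, rfl, rfl⟩ := hint α β hI
  have ha : 0 < a := by exact_mod_cast hα
  refine ⟨a, b, hS, ha, fun l => ?_⟩
  obtain ⟨C, hC⟩ := hB l
  refine ⟨C + 1, ?_⟩
  set B : ℕ := b.natAbs with hBdef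
  set a' : ℕ := a.toNat with ha'
  have haa : (a' : ℤ) = a := Int.toNat_of_nonneg ha.le
  have ha1 : 1 ≤ a' := by omega
  have ht : Tendsto (fun N : ℕ => a' * N + B) atTop atTop := by
    apply tendsto_atTop_mono (f := id)
    · intro N
      have : 1 * N ≤ a' * N := Nat.mul_le_mul_right _ ha1
      simp only [id]
      omega
    · exact tendsto_id
  refine ht.frequently ((hC.and_eventually ((ev_pow C (2 * B + 1) (by positivity)).and
    ((ev_log (2 * (a' + B) + 1)).and (eventually_ge_atTop 3)))).mono ?_)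
  rintro N ⟨hN, hN1, hN2, hN3⟩ A hA
  obtain ⟨d, hd1, hd2, hd3⟩ := hN A hA
  have hN0 : (0 : ℝ) < N := by exact_mod_cast (by omega : 0 < N)
  have hlogN : 1 ≤ Real.log N := le_trans (by
    have : (0 : ℝ) ≤ 2 * ((a' : ℝ) + B) := by positivity
    linarith) hN2
  have hNX : N ≤ a' * N + B := by
    have : 1 * N ≤ a' * N := Nat.mul_le_mul_right _ ha1
    omega
  have hNX' : (N : ℝ) ≤ ((a' * N + B : ℕ) : ℝ) := by exact_mod_cast hNX
  have hll : Real.log N ≤ Real.log ((a' * N + B : ℕ) : ℝ) := Real.log_le_log hN0 hNX'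
  have hLX : 1 ≤ Real.log ((a' * N + B : ℕ) : ℝ) := hlogN.trans hll
  have hpow : Real.log N ^ C ≤ Real.log ((a' * N + B : ℕ) : ℝ) ^ C :=
    pow_le_pow_left₀ (by linarith) hll C
  refine ⟨a' * d, Nat.mul_pos ha1 hd1, ⟨d, by push_cast; rw [haa]⟩, ?_, ?_⟩
  · have h1 : (a' : ℝ) ≤ Real.log ((a' * N + B : ℕ) : ℝ) := by
      have h2 : (a' : ℝ) ≤ Real.log N := by
        have : (0 : ℝ) ≤ B := Nat.cast_nonneg _
        have : (0 : ℝ) ≤ a' := Nat.cast_nonneg _
        linarith
      exact h2.trans hll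
    rw [Nat.cast_mul, pow_succ']
    exact mul_le_mul h1 (hd2.trans hpow) (Nat.cast_nonneg _) (by linarith)
  · -- the injection
    set F : Finset ℕ := ((Icc 1 N).filter fun n : ℕ =>
      ∀ j < l, PT W A ((a : ℚ) * ((n + j * d : ℕ) : ℚ) + (b : ℚ))) with hF
    have hFc : cntP (a : ℚ) (b : ℚ) W A l d N = F.card := rfl
    set F' : Finset ℕ := F.filter fun n => B < n with hF'
    have h1 : F.card ≤ F'.card + B := by
      have h2 : F ⊆ F' ∪ (Icc 1 B) := by
        intro n hn
        by_cases h : B < n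
        · exact mem_union_left _ (mem_filter.2 ⟨hn, h⟩)
        · refine mem_union_right _ (mem_Icc.2 ⟨?_, by omega⟩)
          exact (mem_Icc.1 (mem_filter.1 hn).1).1
      have h3 := (card_le_card h2).trans (card_union_le _ _)
      rwa [Nat.card_Icc, Nat.add_sub_cancel] at h3
    set f : ℕ → ℕ := fun n => (a * n + b).toNat with hf
    have hfn : ∀ n : ℕ, B < n → ((f n : ℕ) : ℤ) = a * n + b := by
      intro n hn
      apply Int.toNat_of_nonneg
      have h2 : -(B : ℤ) ≤ b := by rw [hBdef, Int.natCast_natAbs]; exact neg_abs_le b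
      have h3 : (n : ℤ) ≤ a * n := by
        have : (0 : ℤ) ≤ n := Int.natCast_nonneg _
        nlinarith
      have h4 : (B : ℤ) < n := by exact_mod_cast hn
      linarith
    have h4 : F'.card ≤ {q : ℕ | q ≤ a' * N + B ∧ (q : ℤ) ≡ b [ZMOD a] ∧
          ∀ t < l, PT W A ((q + t * (a' * d) : ℕ) : ℚ)}.ncard := by
      rw [← card_image_of_injOn (f := f) (s := F') (by
        intro n hn m hm hnm
        have e1 := hfn n (mem_filter.1 (mem_coe.1 hn)).2
        have e2 := hfn m (mem_filter.1 (mem_coe.1 hm)).2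
        have hnm' : f n = f m := hnm
        rw [hnm', e2] at e1
        have e3 : a * (m : ℤ) = a * n := by linarith
        exact_mod_cast (mul_left_cancel₀ ha.ne' e3).symm), ← Set.ncard_coe_finset]
      apply Set.ncard_le_ncard
      · intro q hq
        obtain ⟨n, hn, rfl⟩ := mem_image.1 (mem_coe.1 hq)
        obtain ⟨hn1, hn2⟩ := mem_filter.1 hn
        obtain ⟨hn3, hn4⟩ := mem_filter.1 hn1
        have e1 := hfn n hn2
        have e2 := mem_Icc.1 hn3
        refine ⟨?_, ?_, ?_⟩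
        · have h5 : ((f n : ℕ) : ℤ) ≤ ((a' * N + B : ℕ) : ℤ) := by
            rw [e1]
            push_cast
            rw [haa]
            have h6 : b ≤ (B : ℤ) := by rw [hBdef, Int.natCast_natAbs]; exact le_abs_self b
            have h7 : a * (n : ℤ) ≤ a * N := mul_le_mul_of_nonneg_left (by exact_mod_cast e2.2) ha.le
            linarith
          exact_mod_cast h5
        · rw [e1, Int.modEq_iff_dvd]
          exact ⟨-n, by ring⟩
        · intro t htl
          have h5 := hn4 t htl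
          have h6 : ((f n + t * (a' * d) : ℕ) : ℚ) = (a : ℚ) * ((n + t * d : ℕ) : ℚ) + (b : ℚ) := by
            have h7 : ((f n : ℕ) : ℚ) = a * n + b := by exact_mod_cast e1
            have h8 : ((a' : ℕ) : ℚ) = a := by exact_mod_cast haa
            push_cast
            rw [h7, h8]
            ring
          rw [h6]
          exact h5
      · exact (Set.finite_Iic (a' * N + B)).subset fun q hq => hq.1
    have h5 : (F.card : ℝ) ≤ ({q : ℕ | q ≤ a' * N + B ∧ (q : ℤ) ≡ b [ZMOD a] ∧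
          ∀ t < l, PT W A ((q + t * (a' * d) : ℕ) : ℚ)}.ncard : ℝ) + B := by
      exact_mod_cast h1.trans (Nat.add_le_add_right h4 B)
    rw [hFc] at hd3
    have h6 : ((a' * N + B : ℕ) : ℝ) / Real.log ((a' * N + B : ℕ) : ℝ) ^ (C + 1) ≤
        (N : ℝ) / Real.log N ^ C - B := by
      have hL0 : 0 < Real.log N := by linarith
      have hP0 : 0 < Real.log N ^ C := by positivity
      have h7 : ((a' * N + B : ℕ) : ℝ) ≤ (a' + B) * N := by
        push_cast
        have h8 : (1 : ℝ) ≤ N := by exact_mod_cast (by omega : 1 ≤ N)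
        have h9 : (0 : ℝ) ≤ B := Nat.cast_nonneg _
        nlinarith
      have h8 : Real.log N ^ (C + 1) ≤ Real.log ((a' * N + B : ℕ) : ℝ) ^ (C + 1) :=
        pow_le_pow_left₀ (by linarith) hll _
      have h9 : ((a' * N + B : ℕ) : ℝ) / Real.log ((a' * N + B : ℕ) : ℝ) ^ (C + 1) ≤
          ((a' + B) * N) / Real.log N ^ (C + 1) :=
        div_le_div₀ (by positivity) h7 (by positivity) h8
      refine h9.trans ?_
      have h10 : (B : ℝ) ≤ (N / Real.log N ^ C) / 2 := by
        rw [le_div_iff₀ (by norm_num), le_div_iff₀ hP0]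
        have : (2 * (B : ℝ) + 1) * Real.log N ^ C = B * 2 * Real.log N ^ C + Real.log N ^ C := by ring
        linarith
      have h11 : ((a' + B) * N) / Real.log N ^ (C + 1) ≤ (N / Real.log N ^ C) / 2 := by
        rw [pow_succ, div_le_iff₀ (by positivity)]
        have h12 : (N / Real.log N ^ C) / 2 * (Real.log N ^ C * Real.log N) = N * (Real.log N / 2) := by
          field_simp
        rw [h12, mul_comm]
        apply mul_le_mul_of_nonneg_left _ hN0.le
        linarith
      linarith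
    push_cast at h6 h5 ⊢
    linarith

end Pool.Agent.Run7.h783.GL
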