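import Mathlib
import Pool.Agent.Run7.h783.GL.Count
import Pool.Agent.Run7.h783.GS.AffM

set_option autoImplicit false

/-!
Infinite cyclic groups of affine maps.
-/

namespace Pool.Agent.Run7.h783.GL

open Finset Filter
open Pool.Agent.Run7.h783.GS

/-- subgroups of index at most three of an infinite cyclic group, and sequences through them -/
theorem cyc (g : PQ) (hginj : ∀ s t : ℤ, g ^ s = g ^ t → s = t) (H : Subgroup PQ) (hHA : H ≤ Subgroup.zpowers g)
    (h0 : H.relIndex (Subgroup.zpowers g) ≠ 0) (h3 : H.relIndex (Subgroup.zpowers g) ≤ 3) (y : ℕ → PQ)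
    (hy1 : Function.Injective y) (hy2 : Set.range y = H) : ∃ m : ℕ, 1 ≤ m ∧ m ≤ 3 ∧ ∃ s : ℕ → ℤ,
      Function.Injective s ∧ Set.range s = {t | (m : ℤ) ∣ t} ∧ ∀ i, y i = g ^ s i := by
  classical
  have hyH : ∀ i, y i ∈ H := fun i => by
    have : y i ∈ Set.range y := ⟨i, rfl⟩
    rw [hy2] at this
    exact this
  obtain ⟨i, j, hij, hm⟩ := four_of_index _ H h0 h3 (fun i => g ^ (i : ℕ))
    (fun i => Subgroup.npow_mem_zpowers _ _)
  have hex : ∃ e : ℕ, 1 ≤ e ∧ g ^ e ∈ H := by
    obtain ⟨e, he⟩ : ∃ e : ℕ, (j : ℕ) = i + e := ⟨(j : ℕ) - i, by have := Fin.lt_def.1 hij; omega⟩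
    refine ⟨e, by have := Fin.lt_def.1 hij; omega, ?_⟩
    simp only [he] at hm
    rwa [add_comm, pow_add, mul_inv_cancel_right] at hm
  set m := Nat.find hex with hmdef
  obtain ⟨hm1, hmH⟩ := Nat.find_spec hex
  have hmmin : ∀ e : ℕ, e < m → g ^ e ∈ H → e = 0 := by
    intro e he heH
    by_contra h
    exact Nat.find_min hex he ⟨by omega, heH⟩
  have hm3 : m ≤ 3 := by
    by_contra hcon
    have h4 : ((j : ℕ) - i) < m := by have := j.2; omega
    have h5 := hmmin ((j : ℕ) - i) h4 (by
      obtain ⟨e, he⟩ : ∃ e : ℕ, (j : ℕ) = i + e := ⟨(j : ℕ) - i, by have := Fin.lt_def.1 hij; omega⟩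
      simp only [he] at hm ⊢
      rw [add_comm, pow_add, mul_inv_cancel_right] at hm
      rwa [Nat.add_sub_cancel_left])
    have := Fin.lt_def.1 hij
    omega
  have hHm : ∀ s : ℤ, g ^ s ∈ H ↔ (m : ℤ) ∣ s := by
    intro s
    constructor
    · intro hs
      have h4 : s = m * (s / m) + ((s % m).toNat : ℤ) := by
        rw [Int.toNat_of_nonneg (Int.emod_nonneg _ (by omega))]
        exact (Int.mul_ediv_add_emod s m).symm
      have h5 : g ^ ((s % m).toNat) ∈ H := by
        have h6 : g ^ ((s % m).toNat) = g ^ s * ((g ^ m) ^ (s / m))⁻¹ := by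
          rw [eq_mul_inv_iff_mul_eq, ← zpow_natCast g m, ← zpow_mul, ← zpow_natCast, ← zpow_add]
          congr 1
          linarith
        rw [h6]
        exact H.mul_mem hs (H.inv_mem (H.zpow_mem hmH _))
      have h6 := hmmin _ (by
        have := Int.emod_lt_of_pos s (show (0 : ℤ) < m by omega)
        omega) h5
      rw [h6] at h4
      exact ⟨s / m, by simpa using h4⟩
    · rintro ⟨t, rfl⟩
      rw [zpow_mul, zpow_natCast]
      exact H.zpow_mem hmH t
  choose s hs using fun i => Subgroup.mem_zpowers_iff.1 (hHA (hyH i))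
  refine ⟨m, hm1, hm3, s, ?_, ?_, fun i => (hs i).symm⟩
  · intro i i' h
    apply hy1
    rw [← hs i, ← hs i', h]
  · ext t
    constructor
    · rintro ⟨i, rfl⟩
      have h4 := hyH i
      rw [← hs i, hHm] at h4
      exact h4
    · intro ht
      have h4 : g ^ t ∈ Set.range y := by
        rw [hy2]; exact (hHm _).2 ht
      obtain ⟨i, hi⟩ := h4
      refine ⟨i, ?_⟩
      rw [← hs i] at hi
      exact hginj _ _ hi

/-- patterns indexed by a window -/
theorem patWin {x : ℚ} {y : ℕ → PQ} (hy : Function.Injective y) (i k : ℕ) (B : Finset ℕ) (hB : B ⊆ range (k + 1))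
    (W A : Finset PQ) (hW : W = (range (k + 1)).image fun j => y (i + j))
    (hA : A = B.image fun j => y (i + j)) (h : PT W A x) :
    ∀ j ≤ k, (∃ p : ℕ, p.Prime ∧ y (i + j) x = p) ↔ j ∈ B := by
  classical
  subst hW hA
  intro j hj
  constructor
  · intro hp
    by_contra hjB
    refine h.2 (y (i + j)) (mem_image_of_mem (fun j => y (i + j)) (mem_range.2 (by omega))) ?_ hp
    intro hmem
    obtain ⟨j', hj', he⟩ := mem_image.1 hmem
    have h1 := hy he
    have h2 : j' = j := by omega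
    rw [h2] at hj'
    exact hjB hj'
  · intro hjB
    exact h.1 _ (mem_image_of_mem (fun j => y (i + j)) hjB)

end Pool.Agent.Run7.h783.GL
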