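import Mathlib
import Pool.Agent.Run7.h783.GL.Cyc
import Pool.Agent.Run7.h783.GS.IterM

set_option autoImplicit false

/-!
The iterates of `x ↦ a + d x`: all multiples of `N`, `2 N` or `3 N` in one sequence, all patterns of prime and
composite values along narrow progressions of starting points.
-/

namespace Pool.Agent.Run7.h783.GL

open Finset Filter
open Pool.Agent.Run7.h783.GS
open Pool.Agent.Run7.h783.RecSeq

theorem invS_univ (A : Subgroup PQ) : InvS Set.univ A := fun _ _ _ _ _ _ _ _ _ => Set.mem_univ _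

/-- **The iterates of one map, all patterns along narrow progressions.** -/
theorem final_iterL (a d : ℤ) (hd : 0 < d) (hc : IsCoprime a d) (h2 : 2 ∣ a * d) (hne : ¬ (a = 0 ∧ d = 1))
    (N : ℕ) (hN : 0 < N) (hN3 : 3 ∣ d - 1 → ¬ 3 ∣ a → 3 ∣ N) :
    ∃ m : ℕ, 1 ≤ m ∧ m ≤ 3 ∧ ∃ x : ℕ → ℤ, Function.Injective x ∧
      Set.range x = {y | ((m * N : ℕ) : ℤ) ∣ y} ∧
      ∀ k : ℕ, ∃ i₀ : ℕ, ∀ i ≥ i₀, ∀ s ≤ k, (∀ j ≤ k, x (i + s) ≤ x (i + j)) →
        ∀ l : ℕ, ∃ C : ℕ, ∃ᶠ X : ℕ in atTop, ∀ B ⊆ Finset.range (k + 1), ∃ D : ℕ, 1 ≤ D ∧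
          (D : ℝ) ≤ (Real.log X) ^ C ∧ (X : ℝ) / (Real.log X) ^ C ≤
          ({q : ℕ | q ≤ X ∧ ∀ t < l, ∀ j ≤ k, ((∃ p : ℕ, p.Prime ∧
            (p : ℤ) = (fun y : ℤ => a + d * y)^[(x (i + j) - x (i + s)).toNat] ((q + t * D : ℕ) : ℤ)) ↔
              j ∈ B)}.ncard : ℝ) := by
  classical
  set g : PQ := TM a d hd ^ N with hg
  have hgA : g ∈ AffG := AffG.pow_mem (TM_mem a d hd) N
  have hgz : ∀ s : ℤ, g ^ s = TM a d hd ^ ((N : ℤ) * s) := fun s => by
    rw [hg, zpow_mul, zpow_natCast]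
  have hN0 : (N : ℤ) ≠ 0 := by exact_mod_cast hN.ne'
  have hginj : ∀ s t : ℤ, g ^ s = g ^ t → s = t := by
    intro s t hst
    rw [hgz, hgz] at hst
    exact mul_left_cancel₀ hN0 (TM_inj a d hd hne hst)
  have hzA : Subgroup.zpowers g ≤ AffG := (Subgroup.zpowers_le).2 hgA
  obtain ⟨H, hHA, h0, h3, y, hy1, hy2, hy3⟩ := mainL (S := Set.univ) hzA (invS_univ _)
    (TE a d hd N) (TE_inj a d hd hne N hN) (fun n => by
      have h7 : TE a d hd N n = g ^ (6 * ((n + 3).factorial * (n + 3).factorial)) := by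
        rw [TE, MM, hg, ← pow_mul]
        congr 1
        ring
      rw [h7]
      exact Subgroup.npow_mem_zpowers _ _) (LC_of_LCB (by
    have h := lcb_pow a d hd hc h2 N hN hN3 (fun _ => 0)
    simpa using h)) (fun H hH h => iter_idx a d hd hc h2 N hN hN3 H hH
      (fun z hz hL => h z hz (LC_of_LCB hL)))
  obtain ⟨m, hm1, hm3, s, hs1, hs2, hs3⟩ := cyc g hginj H hHA h0 h3 y hy1 hy2
  have hyA : ∀ i, y i ∈ AffG := by
    intro i
    rw [hs3 i]
    exact AffG.zpow_mem hgA _
  refine ⟨m, hm1, hm3, fun i => (N : ℤ) * s i, ?_, ?_, ?_⟩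
  · intro i i' h
    exact hs1 (mul_left_cancel₀ hN0 h)
  · ext t
    constructor
    · rintro ⟨i, rfl⟩
      have h4 : s i ∈ Set.range s := ⟨i, rfl⟩
      rw [hs2] at h4
      obtain ⟨c, hc⟩ := h4
      refine ⟨c, ?_⟩
      simp only [hc]
      push_cast
      ring
    · rintro ⟨c, hc⟩
      have h4 : (m : ℤ) * c ∈ Set.range s := by
        rw [hs2]; exact dvd_mul_right _ _
      obtain ⟨i, hi⟩ := h4
      refine ⟨i, ?_⟩
      simp only [hi, hc]
      push_cast
      ring
  · intro k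
    obtain ⟨i₀, hi₀⟩ := hy3 (k + 1) (by omega)
    refine ⟨i₀, fun i hi r hr hmin l => ?_⟩
    set z : PQ := (y (i + r))⁻¹ with hz
    have hzA : z ∈ AffG := AffG.inv_mem (hyA _)
    have hW : ((Finset.range (k + 1)).image fun j => y (i + j)).image (· * z) =
        (Finset.range (k + 1)).image fun j => y (i + j) * z := by
      rw [image_image]
      rfl
    have hPr := rinv_PrL (S := Set.univ) (A := AffG) le_rfl (invS_univ _) _ z hzA (hi₀ i hi)
    rw [hW] at hPr
    obtain ⟨a', b', -, ha0, hcount⟩ := count1 hPr (by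
      intro α β hI
      obtain ⟨a, b, hab⟩ := hI (y (i + r) * z) (mem_image_of_mem (fun j => y (i + j) * z)
        (mem_range.2 (by omega)))
      rw [hz, mul_inv_cancel] at hab
      have e0 := hab 0
      have e1 := hab 1
      simp only [Equiv.Perm.one_apply] at e0 e1
      push_cast at e0 e1
      exact ⟨a, b, by linarith, by linarith⟩)
    obtain ⟨C, hC⟩ := hcount l
    refine ⟨C, hC.mono fun X hX B hB => ?_⟩
    obtain ⟨D, hD1, -, hD3, hD4⟩ := hX (B.image fun j => y (i + j) * z) (image_subset_image hB)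
    refine ⟨D, hD1, hD3, hD4.trans ?_⟩
    rw [Nat.cast_le]
    apply Set.ncard_le_ncard
    · rintro q ⟨hq1, -, hq3⟩
      refine ⟨hq1, fun t ht j hj => ?_⟩
      have hyz : Function.Injective (fun j => y j * z) := fun j j' h => hy1 (mul_right_cancel h)
      rw [← patWin hyz i k B hB _ _ rfl rfl (hq3 t ht) j hj]
      apply exists_congr
      intro p
      apply and_congr Iff.rfl
      have h5 : y (i + j) * z = TM a d hd ^ (((N : ℤ) * s (i + j) - (N : ℤ) * s (i + r)).toNat) := by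
        rw [hz, hs3 (i + j), hs3 (i + r), hgz, hgz, ← zpow_neg, ← zpow_add, ← zpow_natCast,
          Int.toNat_of_nonneg (by have := hmin j hj; linarith)]
        congr 1
      simp only [h5]
      rw [TM_pow, iter_eq]
      constructor
      · intro h
        rw [← Int.cast_natCast (R := ℚ) p, h]
        push_cast
        ring
      · intro h
        have h6 : ((p : ℤ) : ℚ) = ((d ^ ((N : ℤ) * s (i + j) - (N : ℤ) * s (i + r)).toNat *
            ((q + t * D : ℕ) : ℤ) + cst a d ((N : ℤ) * s (i + j) - (N : ℤ) * s (i + r)).toNat : ℤ) : ℚ) := by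
          push_cast
          push_cast at h
          exact h.symm
        exact_mod_cast h6
    · exact (Set.finite_Iic X).subset fun q hq => hq.1

end Pool.Agent.Run7.h783.GL
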