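import Mathlib
import Pool.Agent.Run7.h783.GL.Cyc
import Pool.Agent.Run7.h783.GL.IterL
import Pool.Agent.Run7.h783.GS.Mult

set_option autoImplicit false

/-!
Dilations with a common centre: all patterns along narrow progressions.
-/

namespace Pool.Agent.Run7.h783.GL

open Finset Filter
open Pool.Agent.Run7.h783.GS
open Pool.Agent.Run7.h783.RecSeq

/-- **Dilations with centre `c`, all patterns along narrow progressions.** -/
theorem final_multL (c : ℤ) (G : Subgroup ℚˣ) (hpos : ∀ g ∈ G, 0 < (g : ℚ))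
    (hcop : ∀ g ∈ G, IsCoprime (g : ℚ).num c) (hinf : (G : Set ℚˣ).Infinite) :
    ∃ H : Subgroup ℚˣ, H ≤ G ∧ H.relIndex G ≠ 0 ∧ H.relIndex G ≤ 3 ∧
      ∃ r : ℕ → ℚˣ, Function.Injective r ∧ Set.range r = H ∧
        ∀ k : ℕ, ∃ i₀ : ℕ, ∀ i ≥ i₀, ∀ m : ℕ → ℕ, (∀ j ≤ k, 1 ≤ m j) →
          (∀ j ≤ k, (m j : ℚ) * r i = m 0 * r (i + j)) → (Finset.range (k + 1)).gcd m = 1 →
          ∀ l : ℕ, ∃ C : ℕ, ∃ᶠ X : ℕ in atTop, ∀ B ⊆ Finset.range (k + 1), ∃ D : ℕ, 1 ≤ D ∧
            (D : ℝ) ≤ (Real.log X) ^ C ∧ (X : ℝ) / (Real.log X) ^ C ≤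
            ({q : ℕ | q ≤ X ∧ ∀ t < l, ∀ j ≤ k, ((∃ p : ℕ, p.Prime ∧
              (p : ℤ) = m j * ((q + t * D : ℕ) : ℤ) + c) ↔ j ∈ B)}.ncard : ℝ) := by
  classical
  have hden : ∀ g ∈ G, IsCoprime ((g : ℚ).den : ℤ) c := by
    intro g hg
    have h1 := hcop g⁻¹ (G.inv_mem hg)
    have h0 := hpos g hg
    rw [Units.val_inv_eq_inv_val, Rat.inv_def, Rat.num_divInt] at h1
    have h2 : 0 < (g : ℚ).num := Rat.num_pos.2 h0
    have h3 : ((g : ℚ).num).gcd ((g : ℚ).den : ℤ) = 1 := by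
      rw [Int.gcd, Int.natAbs_natCast]
      exact (g : ℚ).reduced
    rw [Int.sign_eq_one_of_pos h2] at h1
    rw [h3] at h1
    simpa using h1
  have hpos' : ∀ g : G, 0 < ((g : ℚˣ) : ℚ) := fun g => hpos g.1 g.2
  -- the homomorphism to the affine maps
  set δ : G →* PQ :=
    { toFun := fun g => dil c ((g : ℚˣ) : ℚ) (hpos' g)
      map_one' := by
        ext x
        rw [dil_apply]
        simp
      map_mul' := by
        intro g h
        ext x
        rw [Equiv.Perm.mul_apply, dil_apply, dil_apply, dil_apply]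
        push_cast
        ring } with hδ
  have hδa : ∀ g : G, δ g = dil c ((g : ℚˣ) : ℚ) (hpos' g) := fun g => rfl
  have hδi : Function.Injective δ := by
    intro g h hgh
    have h1 : sl (δ g) = sl (δ h) := by rw [hgh]
    rw [hδa, hδa, sl_dil, sl_dil] at h1
    exact Subtype.ext (Units.ext h1)
  have hAA : δ.range ≤ AffG := by
    rintro _ ⟨g, rfl⟩
    exact aff_mem _ _ (hpos' g)
  -- the sequence of sixth powers
  have hGinf : Infinite G := hinf.to_subtype
  set gs : ℕ → G := fun n => Infinite.natEmbedding G n with hgs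
  have hgsi : Function.Injective gs := (Infinite.natEmbedding G).injective
  set E : ℕ → PQ := fun n => δ (gs n ^ 6) with hE
  have hEi : Function.Injective E := by
    intro a b hab
    have h1 := hδi hab
    have h2 : (((gs a ^ 6 : G) : ℚˣ) : ℚ) = (((gs b ^ 6 : G) : ℚˣ) : ℚ) := by rw [h1]
    push_cast at h2
    have h3 := (pow_left_inj₀ (hpos' (gs a)).le (hpos' (gs b)).le (by norm_num : (6 : ℕ) ≠ 0)).1 h2
    exact hgsi (Subtype.ext (Units.ext h3))
  have hlcb : ∀ z : Fin 4 → PQ, (∀ i, z i ∈ δ.range) → LCB E z := by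
    intro z hz L
    refine ⟨0, fun W _ hw => ready_center c W fun w hwW => ?_⟩
    obtain ⟨n, -, i, rfl⟩ := hw w hwW
    obtain ⟨g, hg⟩ := hz i
    exact ⟨_, hpos' (gs n ^ 6 * g), by rw [← hδa, map_mul, ← hg],
      hcop _ (gs n ^ 6 * g).2, hden _ (gs n ^ 6 * g).2⟩
  obtain ⟨H', hHA, h0, h3, y, hy1, hy2, hy3⟩ := mainL (S := Set.univ) hAA (invS_univ _) E hEi (fun n => ⟨_, rfl⟩)
    (LC_of_LCB (hlcb _ fun _ => δ.range.one_mem)) (by
    intro H _ h
    have h4 : ∀ z : Fin 4 → PQ, (∀ i, z i ∈ δ.range) → ∃ i j : Fin 4, i < j ∧ z j * (z i)⁻¹ ∈ H :=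
      fun z hz => h z hz (LC_of_LCB (hlcb z hz))
    obtain ⟨h5, h6⟩ := index_le _ H h4
    refine ⟨h5, h6, fun n => ?_⟩
    obtain ⟨i, j, hij, hm⟩ := h4 (fun i => δ (gs n) ^ (i : ℕ)) (fun i => ⟨gs n ^ (i : ℕ), map_pow _ _ _⟩)
    obtain ⟨e, he, he6⟩ : ∃ e : ℕ, (j : ℕ) = i + e ∧ e ∣ 6 := by
      refine ⟨(j : ℕ) - i, by have := Fin.lt_def.1 hij; omega, ?_⟩
      have h1 := Fin.lt_def.1 hij
      have h2 := j.2
      have h3 : (j : ℕ) - i = 1 ∨ (j : ℕ) - i = 2 ∨ (j : ℕ) - i = 3 := by omega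
      rcases h3 with h | h | h <;> rw [h] <;> decide
    rw [he, add_comm, pow_add, mul_inv_cancel_right] at hm
    obtain ⟨t, ht⟩ := he6
    have h7 : E n = (δ (gs n) ^ e) ^ t := by
      rw [hE, ← pow_mul, ← ht, ← map_pow]
    rw [h7]
    exact H.pow_mem hm _)
  have hyH : ∀ i, y i ∈ H' := fun i => by
    have : y i ∈ Set.range y := ⟨i, rfl⟩
    rw [hy2] at this
    exact this
  choose g hg using fun i => hHA (hyH i)
  set H : Subgroup ℚˣ := (H'.comap δ).map G.subtype with hH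
  have hmemH : ∀ h : G, (h : ℚˣ) ∈ H ↔ δ h ∈ H' := by
    intro h
    rw [hH, Subgroup.mem_map]
    constructor
    · rintro ⟨h', hh', he⟩
      have : h' = h := Subtype.ext he
      rw [← this]
      exact hh'
    · intro hh
      exact ⟨h, hh, rfl⟩
  have hHG : H ≤ G := by
    rintro _ ⟨h, -, rfl⟩
    exact h.2
  have hidx := index_le G H (fun z hz => by
    obtain ⟨i, j, hij, hm⟩ := four_of_index _ H' h0 h3 (fun i => δ ⟨z i, hz i⟩) (fun i => ⟨_, rfl⟩)
    refine ⟨i, j, hij, ?_⟩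
    have h1 := (hmemH (⟨z j, hz j⟩ * (⟨z i, hz i⟩)⁻¹)).2 (by rw [map_mul, map_inv]; exact hm)
    exact h1)
  refine ⟨H, hHG, hidx.1, hidx.2, fun i => (g i : ℚˣ), ?_, ?_, ?_⟩
  · intro i j h
    apply hy1
    rw [← hg i, ← hg j]
    congr 1
    exact Subtype.ext h
  · ext u
    constructor
    · rintro ⟨i, rfl⟩
      exact (hmemH _).2 (by rw [hg]; exact hyH i)
    · intro hu
      have huG := hHG hu
      have h1 : δ ⟨u, huG⟩ ∈ Set.range y := by
        rw [hy2]; exact (hmemH ⟨u, huG⟩).1 hu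
      obtain ⟨i, hi⟩ := h1
      refine ⟨i, ?_⟩
      rw [← hg i] at hi
      have := hδi hi
      show ((g i : G) : ℚˣ) = u
      rw [this]
  · intro k
    obtain ⟨i₀, hi₀⟩ := hy3 (k + 1) (by omega)
    refine ⟨i₀, fun i hi m hm1 hmr hgcd l => ?_⟩
    have hPr := hi₀ i hi
    have hyA : ∀ i, y i ∈ AffG := fun i => hAA (hHA (hyH i))
    have hm0 : (0 : ℚ) < m 0 := by exact_mod_cast hm1 0 (Nat.zero_le k)
    have hr0 : ∀ i, (0 : ℚ) < ((g i : ℚˣ) : ℚ) := fun i => hpos' (g i)
    set z : PQ := aff ((m 0 : ℚ) / ((g i : ℚˣ) : ℚ)) c (div_pos hm0 (hr0 i)) with hz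
    have hzA : z ∈ AffG := aff_mem _ _ _
    have hval : ∀ j ≤ k, ∀ x : ℚ, (y (i + j) * z) x = m j * x + c := by
      intro j hj x
      rw [Equiv.Perm.mul_apply, hz, aff_apply, ← hg (i + j), hδa, dil_apply]
      have h1 := hmr j hj
      have h2 := (hr0 i).ne'
      have h3 : ((g (i + j) : ℚˣ) : ℚ) * ((m 0 : ℚ) / ((g i : ℚˣ) : ℚ)) = m j := by
        rw [mul_div_assoc', div_eq_iff h2]
        linarith
      linear_combination x * h3
    have hW : ((Finset.range (k + 1)).image fun j => y (i + j)).image (· * z) =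
        (Finset.range (k + 1)).image fun j => y (i + j) * z := by
      rw [image_image]
      rfl
    have hPr' := rinv_PrL (S := Set.univ) (A := AffG) le_rfl (invS_univ _) _ z hzA hPr
    rw [hW] at hPr'
    obtain ⟨b, hb⟩ := Finset.gcd_eq_sum_mul (Finset.range (k + 1)) (fun j => (m j : ℤ))
    have hg1 : (Finset.range (k + 1)).gcd (fun j => (m j : ℤ)) = 1 := by
      have h5 : ((Finset.range (k + 1)).gcd (fun j => (m j : ℤ))) ∣ 1 := by
        have h6 : ∀ j ∈ Finset.range (k + 1),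
            ((Finset.range (k + 1)).gcd (fun j => (m j : ℤ))).natAbs ∣ m j := by
          intro j hj
          have h7 := Finset.gcd_dvd (f := fun j => (m j : ℤ)) hj
          exact Int.natAbs_dvd_natAbs.2 h7
        have h8 := Finset.dvd_gcd h6
        rw [hgcd] at h8
        have h9 : ((Finset.range (k + 1)).gcd (fun j => (m j : ℤ))).natAbs = 1 := Nat.dvd_one.1 h8
        exact Int.natAbs_dvd_natAbs.1 (by rw [h9]; exact one_dvd _)
      have h6 := Finset.normalize_gcd (s := Finset.range (k + 1)) (f := fun j => (m j : ℤ))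
      have h7 := normalize_eq_one.2 (isUnit_of_dvd_one h5)
      rw [← h6, h7]
    rw [hg1] at hb
    have hb' : (1 : ℚ) = ∑ j ∈ Finset.range (k + 1), (b j : ℚ) * (m j : ℚ) := by
      have h8 : (1 : ℚ) = ∑ j ∈ Finset.range (k + 1), (m j : ℚ) * (b j : ℚ) := by
        exact_mod_cast hb
      rw [h8]
      exact Finset.sum_congr rfl fun j _ => mul_comm _ _
    have hlin : ∀ x : ℚ, (∀ j ≤ k, ∃ t : ℤ, (m j : ℚ) * x = t) → ∃ t : ℤ, x = t := by
      intro x hx
      choose! t ht using hx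
      refine ⟨∑ j ∈ Finset.range (k + 1), b j * t j, ?_⟩
      push_cast
      calc x = (∑ j ∈ Finset.range (k + 1), (b j : ℚ) * (m j : ℚ)) * x := by rw [← hb', one_mul]
        _ = ∑ j ∈ Finset.range (k + 1), (b j : ℚ) * (t j : ℚ) := by
          rw [Finset.sum_mul]
          apply Finset.sum_congr rfl
          intro j hj
          rw [← ht j (by have := mem_range.1 hj; omega)]
          ring
    obtain ⟨a', b', -, ha0, hcount⟩ := count1 hPr' (by
      intro α β hI
      have h5 : ∀ j ≤ k, ∃ s t : ℤ, (m j : ℚ) * α = s ∧ (m j : ℚ) * β = t := by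
        intro j hj
        obtain ⟨s, t, hst⟩ := hI (y (i + j) * z) (mem_image_of_mem (fun j => y (i + j) * z)
          (mem_range.2 (by omega)))
        have e0 := hst 0
        have e1 := hst 1
        rw [hval j hj] at e0 e1
        push_cast at e0 e1
        exact ⟨s, t - c, by linarith, by push_cast; linarith⟩
      obtain ⟨s, hs⟩ := hlin α (fun j hj => by
        obtain ⟨s, t, h6, -⟩ := h5 j hj
        exact ⟨s, h6⟩)
      obtain ⟨t, ht⟩ := hlin β (fun j hj => by
        obtain ⟨s, t, -, h6⟩ := h5 j hj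
        exact ⟨t, h6⟩)
      exact ⟨s, t, hs, ht⟩)
    obtain ⟨C, hC⟩ := hcount l
    refine ⟨C, hC.mono fun X hX B hB => ?_⟩
    obtain ⟨D, hD1, -, hD3, hD4⟩ := hX (B.image fun j => y (i + j) * z) (image_subset_image hB)
    refine ⟨D, hD1, hD3, hD4.trans ?_⟩
    rw [Nat.cast_le]
    apply Set.ncard_le_ncard
    · rintro q ⟨hq1, -, hq3⟩
      refine ⟨hq1, fun t ht j hj => ?_⟩
      have hyz : Function.Injective (fun j => y j * z) := fun j j' h => hy1 (mul_right_cancel h)
      rw [← patWin hyz i k B hB _ _ rfl rfl (hq3 t ht) j hj]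
      apply exists_congr
      intro p
      apply and_congr Iff.rfl
      simp only [hval j hj]
      constructor
      · intro h
        rw [← Int.cast_natCast (R := ℚ) p, h]
        push_cast
        ring
      · intro h
        have h6 : ((p : ℤ) : ℚ) = (((m j : ℤ) * ((q + t * D : ℕ) : ℤ) + c : ℤ) : ℚ) := by
          push_cast
          push_cast at h
          exact h.symm
        exact_mod_cast h6
    · exact (Set.finite_Iic X).subset fun q hq => hq.1

end Pool.Agent.Run7.h783.GL
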