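import Mathlib
import Pool.Agent.Run7.h783.GL.Cyc

set_option autoImplicit false

/-!
Integer translations: all multiples of `N`, `2 N` or `3 N` in one sequence, all patterns along narrow progressions.
-/

namespace Pool.Agent.Run7.h783.GL

open Finset Filter
open Pool.Agent.Run7.h783.GS
open Pool.Agent.Run7.h783.RecSeq

theorem Tr_zpow (t : ℚ) (s : ℤ) : Tr t ^ s = Tr (s * t) := by
  set φ : Multiplicative ℚ →* PQ :=
    { toFun := fun x => Tr (Multiplicative.toAdd x)
      map_one' := Tr_zero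
      map_mul' := fun x y => (Tr_add _ _).symm } with hφ
  have h := map_zpow φ (Multiplicative.ofAdd t) s
  have h1 : φ (Multiplicative.ofAdd t) = Tr t := rfl
  have h2 : φ (Multiplicative.ofAdd t ^ s) = Tr (s * t) := by
    show Tr (Multiplicative.toAdd (Multiplicative.ofAdd t ^ s)) = _
    rw [toAdd_zpow, toAdd_ofAdd, zsmul_eq_mul]
  rw [← h1, ← h, h2]

theorem Tr_inj {s t : ℚ} (h : Tr s = Tr t) : s = t := by
  have h1 : Tr s 0 = Tr t 0 := by rw [h]
  rwa [Tr_apply, Tr_apply, zero_add, zero_add] at h1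

/-- the progressions `N n + b`, `b ≡ r` -/
def SN (N : ℕ) (r : ℤ) : Set (ℚ × ℚ) := {p | p.1 = N ∧ ∃ b : ℤ, b ≡ r [ZMOD N] ∧ p.2 = b}

theorem invS_SN (N : ℕ) (r : ℤ) : InvS (SN N r) (Subgroup.zpowers (Tr N)) := by
  rintro z hz u v hu huv α β ⟨h1, b, hb, h2⟩
  obtain ⟨s, rfl⟩ := Subgroup.mem_zpowers_iff.1 hz
  rw [Tr_zpow] at huv
  have e0 := huv 0
  have e1 := huv 1
  rw [Tr_apply] at e0 e1
  have hu1 : u = 1 := by linarith
  have hv1 : v = s * N := by linarith
  subst hu1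
  simp only at h1 h2
  refine ⟨by simpa using h1, b - s * N, ?_, ?_⟩
  · refine Int.ModEq.trans ?_ hb
    rw [Int.modEq_iff_dvd]
    exact ⟨s, by ring⟩
  · simp only [div_one]
    rw [h2, hv1]
    push_cast
    ring

/-- the sequence of translations -/
def ES (N n : ℕ) : PQ := Tr (((N : ℤ) * (((n + 3).factorial : ℕ) : ℤ) : ℤ) : ℚ)

theorem ES_inj (N : ℕ) (hN : 0 < N) : Function.Injective (ES N) := by
  intro i j h
  have h1 := Tr_inj h
  have h2 : (N : ℤ) * (((i + 3).factorial : ℕ) : ℤ) = (N : ℤ) * (((j + 3).factorial : ℕ) : ℤ) := by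
    exact_mod_cast h1
  have h3 := mul_left_cancel₀ (by exact_mod_cast hN.ne') h2
  have h4 : (i + 3).factorial = (j + 3).factorial := by exact_mod_cast h3
  have h5 := (Nat.factorial_inj (by omega)).1 h4
  omega

theorem lc_shift (N : ℕ) (hN2 : Even N) (r : ℤ) (hr : IsCoprime r (N : ℤ)) (hN : 0 < N) (zz : Fin 4 → ℤ) (c : ℤ)
    (hc : ∀ i, ¬ (3 : ℤ) ∣ zz i - c) : LC (RdS (SN N r)) (ES N) (fun i => Tr (((N : ℤ) * zz i : ℤ) : ℚ)) := by
  classical
  intro L
  refine ⟨L, fun W hW hw => ?_⟩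
  choose! n hn i hi using hw
  have hNZ : (0 : ℤ) < N := by exact_mod_cast hN
  refine ⟨(N : ℚ), (r : ℚ), ⟨rfl, r, Int.ModEq.refl _, rfl⟩, by exact_mod_cast hN, fun _ => (N : ℤ),
    fun w => r + N * ((((n w + 3).factorial : ℕ) : ℤ) + zz (i w)), ?_, ?_⟩
  · intro w hwW
    refine ⟨hNZ, fun m => ?_⟩
    conv_lhs => rw [hi w hwW]
    rw [Equiv.Perm.mul_apply, Tr_apply, ES, Tr_apply]
    push_cast
    ring
  · intro p hp
    by_cases hpN : (p : ℤ) ∣ N
    · refine ⟨0, fun w _ hd => ?_⟩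
      rw [mul_zero, zero_add] at hd
      have h1 : (p : ℤ) ∣ r := (Int.dvd_add_left (hpN.mul_right _)).1 hd
      exact (Nat.prime_iff_prime_int.1 hp).not_isUnit (hr.isUnit_of_dvd' h1 hpN)
    by_cases hpL : p ≤ L + 3
    · have hfac : ∀ w ∈ W, (p : ℤ) ∣ (((n w + 3).factorial : ℕ) : ℤ) := by
        intro w hw
        have h2 : p ∣ (n w + 3).factorial := Nat.dvd_factorial hp.pos (by have := hn w hw; omega)
        exact_mod_cast h2
      have key : ∃ m : ℤ, ∀ i : Fin 4, ¬ (p : ℤ) ∣ N * m + (r + N * zz i) := by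
        have hp2 := hp.two_le
        rcases Nat.lt_or_ge p 5 with h5 | h5
        · have hp4 : p ≠ 4 := by rintro rfl; exact absurd hp (by decide)
          have h23 : p = 2 ∨ p = 3 := by omega
          rcases h23 with rfl | rfl
          · exact absurd (by exact_mod_cast hN2.two_dvd) hpN
          · have hsq : (3 : ℤ) ∣ (N : ℤ) * N - 1 := by
              have h3 : ¬ (3 : ℤ) ∣ (N : ℤ) := by exact_mod_cast hpN
              have h4 : (N : ℤ) % 3 = 1 ∨ (N : ℤ) % 3 = 2 := by omega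
              have h6 : ((N : ℤ) * N - 1) % 3 = 0 := by
                rcases h4 with h | h <;> simp [Int.sub_emod, Int.mul_emod, h]
              exact Int.dvd_of_emod_eq_zero h6
            refine ⟨-c - r * N, fun i hd => ?_⟩
            have hd' : (3 : ℤ) ∣ N * (-c - r * N) + (r + N * zz i) := by exact_mod_cast hd
            have h3 : (3 : ℤ) ∣ N * (zz i - c) := by
              have h4 := dvd_add hd' (hsq.mul_right r)
              have h6 : (N : ℤ) * (-c - r * N) + (r + N * zz i) + ((N : ℤ) * N - 1) * r = N * (zz i - c) := by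
                ring
              rwa [h6] at h4
            rcases Int.prime_three.dvd_or_dvd h3 with h | h
            · exact absurd h (by exact_mod_cast hpN)
            · exact hc i h
        · obtain ⟨m, hm⟩ := avoid p hp (univ : Finset (Fin 4)) (by rw [card_univ, Fintype.card_fin]; omega)
            (fun _ => (N : ℤ)) (fun i => r + N * zz i) (fun _ _ h => hpN h)
          exact ⟨m, fun i => hm i (mem_univ _)⟩
      obtain ⟨m, hm⟩ := key
      refine ⟨m, fun w hwW hd => hm (i w) ?_⟩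
      have h1 := dvd_sub hd ((hfac w hwW).mul_left (N : ℤ))
      have h2 : (N : ℤ) * m + (r + N * ((((n w + 3).factorial : ℕ) : ℤ) + zz (i w))) -
          N * (((n w + 3).factorial : ℕ) : ℤ) = N * m + (r + N * zz (i w)) := by ring
      rwa [h2] at h1
    · exact avoid p hp W (by omega) _ _ (fun w _ h => hpN h)

theorem shift_idx (N : ℕ) (hN : 0 < N) (hN2 : Even N) (r : ℤ) (hr : IsCoprime r (N : ℤ)) (H : Subgroup PQ)
    (_ : H ≤ Subgroup.zpowers (Tr N))
    (h : ∀ z : Fin 4 → PQ, (∀ i, z i ∈ Subgroup.zpowers (Tr N)) → LC (RdS (SN N r)) (ES N) z →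
      ∃ i j : Fin 4, i < j ∧ z j * (z i)⁻¹ ∈ H) :
    H.relIndex (Subgroup.zpowers (Tr N)) ≠ 0 ∧ H.relIndex (Subgroup.zpowers (Tr N)) ≤ 3 ∧ ∀ n, ES N n ∈ H := by
  classical
  -- the group of shifts
  set T : AddSubgroup ℤ :=
    { carrier := {s | Tr (((N : ℤ) * s : ℤ) : ℚ) ∈ H}
      zero_mem' := by
        show Tr (((N : ℤ) * 0 : ℤ) : ℚ) ∈ H
        rw [mul_zero, Int.cast_zero, Tr_zero]; exact H.one_mem
      add_mem' := by
        intro s t hs ht
        show Tr (((N : ℤ) * (s + t) : ℤ) : ℚ) ∈ H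
        have h1 := H.mul_mem hs ht
        rw [Tr_add] at h1
        have h2 : (((N : ℤ) * (s + t) : ℤ) : ℚ) = (((N : ℤ) * s : ℤ) : ℚ) + (((N : ℤ) * t : ℤ) : ℚ) := by
          push_cast; ring
        rw [h2]; exact h1
      neg_mem' := by
        intro s hs
        show Tr (((N : ℤ) * (-s) : ℤ) : ℚ) ∈ H
        have h1 := H.inv_mem hs
        rw [Tr_inv] at h1
        have h2 : (((N : ℤ) * (-s) : ℤ) : ℚ) = -(((N : ℤ) * s : ℤ) : ℚ) := by
          push_cast; ring
        rw [h2]; exact h1 } with hT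
  have hmT : ∀ s : ℤ, s ∈ T ↔ Tr (((N : ℤ) * s : ℤ) : ℚ) ∈ H := fun s => Iff.rfl
  have hzp : ∀ s : ℤ, Tr (((N : ℤ) * s : ℤ) : ℚ) ∈ Subgroup.zpowers (Tr (N : ℚ)) := by
    intro s
    refine Subgroup.mem_zpowers_iff.2 ⟨s, ?_⟩
    rw [Tr_zpow]
    congr 1
    push_cast
    ring
  have key : ∀ (zz : Fin 4 → ℤ) (c : ℤ), (∀ i, ¬ (3 : ℤ) ∣ zz i - c) → ∃ i j : Fin 4, i < j ∧
      zz j - zz i ∈ T := by
    intro zz c hc
    obtain ⟨i, j, hij, hm⟩ := h _ (fun i => hzp (zz i)) (lc_shift N hN2 r hr hN zz c hc)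
    refine ⟨i, j, hij, ?_⟩
    rw [hmT]
    rw [Tr_inv, Tr_add] at hm
    have h2 : (((N : ℤ) * (zz j - zz i) : ℤ) : ℚ) = (((N : ℤ) * zz j : ℤ) : ℚ) + -(((N : ℤ) * zz i : ℤ) : ℚ) := by
      push_cast; ring
    rw [h2]; exact hm
  have hg : ∃ g : ℕ, 1 ≤ g ∧ g ≤ 3 ∧ (g : ℤ) ∈ T := by
    by_contra hcon
    push Not at hcon
    have hT1 : (1 : ℤ) ∉ T := by simpa using hcon 1 le_rfl (by norm_num)
    have hT2 : (2 : ℤ) ∉ T := by simpa using hcon 2 (by norm_num) (by norm_num)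
    have hT3 : (3 : ℤ) ∉ T := by simpa using hcon 3 (by norm_num) le_rfl
    obtain ⟨i, j, hij, hk⟩ := key ![0, 1, 3, 4] 2 (by decide)
    obtain ⟨i', j', hij', hk'⟩ := key ![0, 3, 6, 9] 1 (by decide)
    have h4 : (4 : ℤ) ∈ T := by
      fin_cases i <;> fin_cases j <;> first
        | exact absurd hij (by decide)
        | exact absurd hk hT1
        | exact absurd hk hT2
        | exact absurd hk hT3
        | exact hk
    have h69 : (6 : ℤ) ∈ T ∨ (9 : ℤ) ∈ T := by
      fin_cases i' <;> fin_cases j' <;> first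
        | exact absurd hij' (by decide)
        | exact absurd hk' hT3
        | exact Or.inl hk'
        | exact Or.inr hk'
    rcases h69 with h | h
    · have h5 := T.sub_mem h h4
      norm_num at h5
      exact hT2 h5
    · have h5 := T.sub_mem (T.sub_mem h h4) h4
      norm_num at h5
      exact hT1 h5
  obtain ⟨g, hg1, hg3, hgT⟩ := hg
  have hmul : ∀ s : ℤ, (g : ℤ) ∣ s → s ∈ T := by
    rintro s ⟨t, rfl⟩
    have h1 := T.zsmul_mem hgT t
    rwa [smul_eq_mul, mul_comm] at h1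
  obtain ⟨h5, h6⟩ := index_le (Subgroup.zpowers (Tr (N : ℚ))) H (fun z hz => by
    choose s hs using fun i => Subgroup.mem_zpowers_iff.1 (hz i)
    -- two with the same residue
    obtain ⟨i, j, hij, he⟩ := Fintype.exists_ne_map_eq_of_card_lt
      (fun i : Fin 4 => (⟨(s i % g).toNat, by
        have h1 := Int.emod_lt_of_pos (s i) (show (0 : ℤ) < g by omega)
        have h2 := Int.emod_nonneg (s i) (show (g : ℤ) ≠ 0 by omega)
        omega⟩ : Fin g)) (by rw [Fintype.card_fin, Fintype.card_fin]; omega)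
    have he1 : (s i % g).toNat = (s j % g).toNat := congrArg Fin.val he
    have he2 : s i % g = s j % g := by
      have h2 := Int.emod_nonneg (s i) (show (g : ℤ) ≠ 0 by omega)
      have h3 := Int.emod_nonneg (s j) (show (g : ℤ) ≠ 0 by omega)
      omega
    have hdv : ∀ i j, s i % g = s j % g → z j * (z i)⁻¹ ∈ H := by
      intro i j hij
      have h1 : (g : ℤ) ∣ s j - s i := Int.ModEq.dvd (show s i ≡ s j [ZMOD g] from hij)
      have h2 := (hmT _).1 (hmul _ h1)
      rw [← hs i, ← hs j, ← zpow_sub, Tr_zpow]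
      have h3 : (((N : ℤ) * (s j - s i) : ℤ) : ℚ) = ((s j - s i : ℤ) : ℚ) * (N : ℚ) := by
        push_cast; ring
      rwa [← h3]
    rcases lt_or_gt_of_ne hij with h7 | h7
    · exact ⟨i, j, h7, hdv i j he2⟩
    · exact ⟨j, i, h7, hdv j i he2.symm⟩)
  refine ⟨h5, h6, fun n => ?_⟩
  show _ ∈ T
  apply hmul
  have h7 : g ∣ (n + 3).factorial := by
    refine dvd_trans ?_ (Nat.factorial_dvd_factorial (show 3 ≤ n + 3 by omega))
    have : g = 1 ∨ g = 2 ∨ g = 3 := by omega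
    rcases this with rfl | rfl | rfl <;> decide
  exact_mod_cast h7

/-- **All multiples of `d N`, for some `d ≤ 3`, in one sequence: all patterns along narrow progressions.** -/
theorem final_shift (N : ℕ) (hN : 0 < N) (hN2 : Even N) (r : ℤ) (hr : IsCoprime r (N : ℤ)) :
    ∃ d : ℕ, 1 ≤ d ∧ d ≤ 3 ∧ ∃ x : ℕ → ℤ, Function.Injective x ∧
      Set.range x = {y | ((d * N : ℕ) : ℤ) ∣ y} ∧
      ∀ k : ℕ, ∃ i₀ : ℕ, ∀ i ≥ i₀, ∀ l : ℕ, ∃ C : ℕ, ∃ᶠ X : ℕ in atTop, ∀ B ⊆ Finset.range (k + 1),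
        ∃ D : ℕ, 1 ≤ D ∧ N ∣ D ∧ (D : ℝ) ≤ (Real.log X) ^ C ∧ (X : ℝ) / (Real.log X) ^ C ≤
          ({n : ℕ | n ≤ X ∧ (n : ℤ) ≡ r [ZMOD N] ∧ ∀ t < l, ∀ j ≤ k,
            ((∃ p : ℕ, p.Prime ∧ (p : ℤ) = ((n + t * D : ℕ) : ℤ) + x (i + j)) ↔ j ∈ B)}.ncard : ℝ) := by
  classical
  have hN0 : (N : ℤ) ≠ 0 := by exact_mod_cast hN.ne'
  have hNq : (N : ℚ) ≠ 0 := by exact_mod_cast hN.ne'
  have hzA : Subgroup.zpowers (Tr (N : ℚ)) ≤ AffG := (Subgroup.zpowers_le).2 (Tr_mem _)
  have hginj : ∀ s t : ℤ, Tr (N : ℚ) ^ s = Tr (N : ℚ) ^ t → s = t := by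
    intro s t hst
    rw [Tr_zpow, Tr_zpow] at hst
    have h1 := mul_right_cancel₀ hNq (Tr_inj hst)
    exact_mod_cast h1
  obtain ⟨H, hHA, h0, h3, y, hy1, hy2, hy3⟩ := mainL (S := SN N r) hzA (invS_SN N r) (ES N) (ES_inj N hN)
    (fun n => Subgroup.mem_zpowers_iff.2 ⟨(((n + 3).factorial : ℕ) : ℤ), by
      rw [Tr_zpow, ES]
      congr 1
      push_cast
      ring⟩) (by
    have h := lc_shift N hN2 r hr hN (fun _ => 0) 1 (fun _ => by decide)
    simpa [Tr_zero] using h) (shift_idx N hN hN2 r hr)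
  obtain ⟨m, hm1, hm3, s, hs1, hs2, hs3⟩ := cyc (Tr N) hginj H hHA h0 h3 y hy1 hy2
  have hyx : ∀ i, y i = Tr (((N : ℤ) * s i : ℤ) : ℚ) := by
    intro i
    rw [hs3 i, Tr_zpow]
    congr 1
    push_cast
    ring
  refine ⟨m, hm1, hm3, fun i => (N : ℤ) * s i, ?_, ?_, ?_⟩
  · intro i i' h
    exact hs1 (mul_left_cancel₀ hN0 h)
  · ext t
    constructor
    · rintro ⟨i, rfl⟩
      have h4 : s i ∈ Set.range s := ⟨i, rfl⟩
      rw [hs2] at h4
      obtain ⟨c, hc⟩ := h4
      refine ⟨c, ?_⟩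
      simp only [hc]
      push_cast
      ring
    · rintro ⟨c, hc⟩
      have h4 : (m : ℤ) * c ∈ Set.range s := by
        rw [hs2]; exact dvd_mul_right _ _
      obtain ⟨i, hi⟩ := h4
      refine ⟨i, ?_⟩
      simp only [hi, hc]
      push_cast
      ring
  · intro k
    obtain ⟨i₀, hi₀⟩ := hy3 (k + 1) (by omega)
    refine ⟨i₀, fun i hi l => ?_⟩
    obtain ⟨a, b, ⟨ha, b', hb', hbb⟩, ha0, hcount⟩ := count1 (hi₀ i hi) (by
      intro α β hI
      obtain ⟨a, b, hab⟩ := hI (y (i + 0)) (mem_image_of_mem (fun j => y (i + j)) (mem_range.2 (by omega)))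
      have e0 := hab 0
      have e1 := hab 1
      rw [hyx, Tr_apply] at e0 e1
      refine ⟨a, b - N * s (i + 0), ?_, ?_⟩
      · push_cast at e0 e1
        linarith
      · push_cast at e0 e1 ⊢
        linarith)
    simp only at ha hbb
    have ha' : a = N := by exact_mod_cast ha
    have hb'' : b = b' := by exact_mod_cast hbb
    obtain ⟨C, hC⟩ := hcount l
    refine ⟨C, hC.mono fun X hX B hB => ?_⟩
    obtain ⟨D, hD1, hD2, hD3, hD4⟩ := hX (B.image fun j => y (i + j)) (image_subset_image hB)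
    refine ⟨D, hD1, by rw [ha'] at hD2; exact_mod_cast hD2, hD3, hD4.trans ?_⟩
    rw [Nat.cast_le]
    apply Set.ncard_le_ncard
    · rintro q ⟨hq1, hq2, hq3⟩
      refine ⟨hq1, ?_, fun t ht j hj => ?_⟩
      · rw [ha', hb''] at hq2
        exact hq2.trans hb'
      · rw [← patWin hy1 i k B hB _ _ rfl rfl (hq3 t ht) j hj]
        apply exists_congr
        intro p
        apply and_congr Iff.rfl
        rw [hyx, Tr_apply]
        constructor
        · intro h
          rw [← Int.cast_natCast (R := ℚ) p, h]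
          push_cast
          ring
        · intro h
          have h5 : ((p : ℤ) : ℚ) = ((((q + t * D : ℕ) : ℤ) + (N : ℤ) * s (i + j) : ℤ) : ℚ) := by
            push_cast
            push_cast at h
            exact h.symm
          exact_mod_cast h5
    · exact (Set.finite_Iic X).subset fun q hq => hq.1

end Pool.Agent.Run7.h783.GL
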